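import Mathlib
import Pool.Agent.Lib.MP_2f3286_ag.SFull.Final
import Pool.Agent.Lib.MP_2f3286_ag.Full.GenFinal

/-!
# A section is the section of at most one place over a given place of the base
-/

open Polynomial IntermediateField IsDedekindDomain NumberField

namespace Pool.Agent.Lib.MP_2f3286_ag.SNeigh

open Pool.Agent.Lib.MP_2f3286_ag.Pt Pool.Agent.Lib.MP_2f3286_ag.Full
  Pool.Agent.Lib.MP_2f3286_ag.SFull Pool.Agent.Lib.MP_2f3286_ag

/-- A place contained in another place is equal to it. -/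
theorem place_eq {M kb : Type*} [Field M] [Field kb] {A₀ A₁ : ValuationSubring M}
    {ψ₀ : A₀ →+* kb} {ψ₁ : A₁ →+* kb} (hunit : ∀ x : A₀, ψ₀ x ≠ 0 → (x : M)⁻¹ ∈ A₀)
    (hle : ∀ x : A₀, ∃ h : (x : M) ∈ A₁, ψ₁ ⟨x, h⟩ = ψ₀ x) :
    A₁ = A₀ ∧ ∀ (a : A₁) (b : A₀), (a : M) = b → ψ₁ a = ψ₀ b := by
  have hge : ∀ x ∈ A₁, x ∈ A₀ := by
    intro x hx
    rcases A₀.mem_or_inv_mem x with h | h
    · exact h
    by_contra hx0
    have h1 : ψ₀ ⟨x⁻¹, h⟩ = 0 := by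
      by_contra h2
      apply hx0
      have := hunit ⟨x⁻¹, h⟩ h2
      rwa [inv_inv] at this
    obtain ⟨h2, h3⟩ := hle ⟨x⁻¹, h⟩
    have hx1 : x ≠ 0 := by
      rintro rfl
      exact hx0 A₀.zero_mem
    have h4 : (⟨x, hx⟩ : A₁) * ⟨x⁻¹, h2⟩ = 1 := Subtype.ext (mul_inv_cancel₀ hx1)
    have h5 := congrArg ψ₁ h4
    rw [map_mul, map_one, h3, h1, mul_zero] at h5
    exact zero_ne_one h5
  refine ⟨?_, fun a b hab => ?_⟩
  · ext x
    exact ⟨hge x, fun hx => (hle ⟨x, hx⟩).1⟩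
  · obtain ⟨h1, h2⟩ := hle b
    rw [← h2]
    congr 1
    exact Subtype.ext hab

/-- a place of `M` over `kb` -/
def IsOver {M kb : Type*} [Field M] [Field kb] [Algebra kb M] (A : ValuationSubring M)
    (ψ : A →+* kb) : Prop :=
  (∀ a : kb, ∃ h : algebraMap kb M a ∈ A, ψ ⟨algebraMap kb M a, h⟩ = a) ∧
  ∀ x : A, ψ x ≠ 0 → (x : M)⁻¹ ∈ A

/-- `s` respects the place on `Δ` -/
def ResOn {k kb K M : Type*} [Field k] [Field kb] [Algebra k kb] [Field K] [Field M]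
    [Algebra K M] (s : Gal(kb/k) →* Gal(M/K)) (A : ValuationSubring M)
    (ψ : A →+* kb) (Δ : Subgroup Gal(kb/k)) : Prop :=
  ∀ σ ∈ Δ, ∀ x : A, ∃ h : s σ x ∈ A, ψ ⟨s σ x, h⟩ = σ (ψ x)

universe u in
theorem place_uniq {k : Type u} [Field k] [NumberField k]
    {K : Type*} [Field K] [Algebra k K] (hK : (⊤ : IntermediateField k K).FG)
    (htr : Algebra.trdeg k K = 1) (R₀ : Subalgebra k K) (hfg : R₀.FG)
    {M : Type*} [Field M] [Algebra K M] [IsGalois K M]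
    [Algebra (AlgebraicClosure k) M] [Algebra k M]
    [IsScalarTower k K M] [IsScalarTower k (AlgebraicClosure k) M]
    (hM : IsMaxUnramOver R₀ K M (AlgebraicClosure k))
    (s : Gal(AlgebraicClosure k/k) →* Gal(M/K))
    (hsec : ∀ σ a, s σ (algebraMap (AlgebraicClosure k) M a) =
      algebraMap (AlgebraicClosure k) M (σ a))
    {A₀ A₁ : ValuationSubring M} {ψ₀ : A₀ →+* AlgebraicClosure k} {ψ₁ : A₁ →+* AlgebraicClosure k}
    (hR : ∀ r : R₀, algebraMap K M r ∈ A₀) (h₀ : IsOver A₀ ψ₀) (h₁ : IsOver A₁ ψ₁)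
    (hagr : ∀ (f : K) (h : algebraMap K M f ∈ A₀), ∃ h' : algebraMap K M f ∈ A₁,
      ψ₁ ⟨_, h'⟩ = ψ₀ ⟨_, h⟩)
    (Δ : Subgroup Gal(AlgebraicClosure k/k)) (hΔ : IsOpen (Δ : Set Gal(AlgebraicClosure k/k)))
    (hr₀ : ResOn s A₀ ψ₀ Δ) (hr₁ : ResOn s A₁ ψ₁ Δ) :
    A₁ = A₀ ∧ ∀ (a : A₁) (b : A₀), (a : M) = b → ψ₁ a = ψ₀ b := by
  classical
  set kb := AlgebraicClosure k with hkbdef
  -- a function which is finite at the place
  obtain ⟨t, ht, htA⟩ : ∃ t : K, Transcendental k t ∧ algebraMap K M t ∈ A₀ := by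
    have h0 : ∃ f : K, Transcendental k f := by
      by_contra hcon
      push Not at hcon
      have : Algebra.IsAlgebraic k K := ⟨fun x => by
        have := hcon x
        rwa [Transcendental, not_not] at this⟩
      rw [trdeg_eq_zero] at htr
      exact zero_ne_one htr
    obtain ⟨f, hf⟩ := h0
    rcases A₀.mem_or_inv_mem (algebraMap K M f) with h | h
    · exact ⟨f, hf, h⟩
    · refine ⟨f⁻¹, fun h1 => hf ?_, by rwa [map_inv₀]⟩
      have := h1.inv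
      rwa [inv_inv] at this
  have hfd := finite_of_fg htr hK ht
  let R' : Subalgebra k K := R₀ ⊔ Algebra.adjoin k {t}
  let R : Subalgebra k K := (integralClosure R' K).restrictScalars k
  have hmemR : ∀ x : K, x ∈ R ↔ IsIntegral R' x := fun x => Iff.rfl
  have hR'R : R' ≤ R := fun x hx => (isIntegral_algebraMap (R := R') (A := K) (x := ⟨x, hx⟩))
  have hR₀R : R₀ ≤ R := le_trans le_sup_left hR'R
  have htR : t ∈ R := hR'R ((le_sup_right : Algebra.adjoin k {t} ≤ R')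
    (Algebra.subset_adjoin (Set.mem_singleton t)))
  have hRn : ∀ x : K, IsIntegral R x → x ∈ R := by
    intro x hx
    have hx' : IsIntegral (integralClosure R' K) x := hx
    exact isIntegral_trans x hx'
  have hRV : ∀ V : ValuationSubring M, (∀ a : k, algebraMap k M a ∈ V) →
      (∀ r : R₀, algebraMap K M r ∈ V) → algebraMap K M t ∈ V →
      ∀ b : integralClosure R M, (b : M) ∈ V := by
    intro V h0 h1 h2 b
    refine PTAux.mem_of_isIntegral (R := R) (fun r => ?_) b.2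
    have h3 : IsIntegral R' (r : K) := (hmemR _).mp r.2
    have h4 : IsIntegral R' (algebraMap K M (r : K)) := h3.map (IsScalarTower.toAlgHom R' K M)
    exact PTAux.mem_of_isIntegral (R := R') (fun r' => sup_mem V h0 R₀ h1 t h2 r' r'.2) h4
  have hkA : ∀ {A : ValuationSubring M} {ψ : A →+* kb}, IsOver A ψ →
      ∀ a : k, algebraMap k M a ∈ A := by
    intro A ψ h a
    obtain ⟨h', -⟩ := h.1 (algebraMap k kb a)
    rwa [← IsScalarTower.algebraMap_apply] at h'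
  have hBA₀ : ∀ b : integralClosure R M, (b : M) ∈ A₀ := hRV A₀ (hkA h₀) hR htA
  have hBA₁ : ∀ b : integralClosure R M, (b : M) ∈ A₁ :=
    hRV A₁ (hkA h₁) (fun r => (hagr _ (hR r)).1) (hagr _ htA).1
  -- the points
  have hpt : ∀ {A : ValuationSubring M} {ψ : A →+* kb}, IsOver A ψ →
      ∀ hBA : ∀ b : integralClosure R M, (b : M) ∈ A,
      ∃ Ψ : integralClosure R M →+* kb, (∀ b, Ψ b = ψ ⟨b, hBA b⟩) ∧ IsPt R M kb Ψ := by
    intro A ψ h hBA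
    refine ⟨ψ.comp ((algebraMap (integralClosure R M) M).codRestrict A hBA), fun b => rfl,
      fun a b hab => ?_⟩
    obtain ⟨h1, h2⟩ := h.1 a
    change ψ ⟨b, hBA b⟩ = a
    rw [← h2]
    congr 1
    exact Subtype.ext hab
  obtain ⟨Ψ₀, e₀, hΨ₀⟩ := hpt h₀ hBA₀
  obtain ⟨Ψ₁, e₁, hΨ₁⟩ := hpt h₁ hBA₁
  have hrΨ : ∀ {A : ValuationSubring M} {ψ : A →+* kb} (hBA : ∀ b : integralClosure R M, (b : M) ∈ A)
      (Ψ : integralClosure R M →+* kb), (∀ b, Ψ b = ψ ⟨b, hBA b⟩) → ResOn s A ψ Δ →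
      ∀ σ ∈ Δ, ∀ b b' : integralClosure R M, (b' : M) = s σ b → Ψ b' = σ (Ψ b) := by
    intro A ψ hBA Ψ hΨ h σ hσ b b' hb
    obtain ⟨h1, h2⟩ := h σ hσ ⟨b, hBA b⟩
    rw [hΨ, hΨ, ← h2]
    congr 1
    exact Subtype.ext hb
  have hunO : IsUnramOver R₀ K M kb := unramOver_of_max t ht R₀ hM
  have hmaxO : IsRadClosedOver R₀ M kb := radClosedOver_of_max R₀ hM
  have hΨ : Ψ₁ = Ψ₀ := uniq_open t ht R hRn
    (fun Ψ hΨ g _ hg => hun_of_over t ht R₀ R hR₀R htR hunO Ψ hΨ g hg)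
    (fun B hBN ⟨O, hO, hON⟩ ℓ _ => fin_lift_over t ht R₀ hfg hunO hmaxO (geomGroup K M kb)
      (fun g => mem_geomGroup) B hBN O hO hON ℓ) s hsec Ψ₀ Ψ₁ hΨ₀ hΨ₁ (fun r => by
        obtain ⟨h1, h2⟩ := hagr (r : K) (hBA₀ (algebraMap R _ r))
        rw [e₀, e₁]
        exact h2) Δ Δ hΔ hΔ (hrΨ hBA₀ Ψ₀ e₀ hr₀) (hrΨ hBA₁ Ψ₁ e₁ hr₁)
  -- the place of the point
  obtain ⟨A', ψ', hA', hBψ, hmul, hunit⟩ := exists_place t ht R htR Ψ₀ hΨ₀
  have hle : ∀ {A : ValuationSubring M} {ψ : A →+* kb}, IsOver A ψ →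
      ∀ hBA : ∀ b : integralClosure R M, (b : M) ∈ A, (∀ b, Ψ₀ b = ψ ⟨b, hBA b⟩) →
      ∀ x : A', ∃ h : (x : M) ∈ A, ψ ⟨x, h⟩ = ψ' x := by
    intro A ψ h hBA he x
    obtain ⟨a, b, hb, hab⟩ := (hA' x).mp x.2
    have h3 : (b : M)⁻¹ ∈ A := h.2 ⟨b, hBA b⟩ (by rw [← he]; exact hb)
    have hb0 : (b : M) ≠ 0 := by
      intro h0
      apply hb
      rw [show b = 0 from Subtype.ext h0, map_zero]
    have h4 : (x : M) = a * (b : M)⁻¹ := by rw [← hab, mul_inv_cancel_right₀ hb0]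
    have h5 : (x : M) ∈ A := by rw [h4]; exact A.mul_mem _ _ (hBA a) h3
    refine ⟨h5, mul_right_cancel₀ hb ?_⟩
    rw [hmul x a b hab, he, he, ← map_mul]
    congr 1
    exact Subtype.ext hab
  obtain ⟨q1, q2⟩ := place_eq hunit (hle h₀ hBA₀ e₀)
  obtain ⟨q3, q4⟩ := place_eq hunit (hle h₁ hBA₁ (fun b => by rw [← hΨ]; exact e₁ b))
  subst q1
  refine ⟨q3, fun a b hab => ?_⟩
  rw [q4 a b hab, q2 b b rfl]

end Pool.Agent.Lib.MP_2f3286_ag.SNeigh
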