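import Mathlib
import Pool.Agent.Lib.MP_2f3286_ag.SNeigh.Uniq

/-!
# Descent of the place of a section from a finite extension of the base field
-/

open Polynomial IntermediateField IsDedekindDomain NumberField

namespace Pool.Agent.Lib.MP_2f3286_ag.SNeigh

open Pool.Agent.Lib.MP_2f3286_ag.Pt Pool.Agent.Lib.MP_2f3286_ag.Full
  Pool.Agent.Lib.MP_2f3286_ag.SFull Pool.Agent.Lib.MP_2f3286_ag

section conj

variable {k kb K M : Type*} [Field k] [Field kb] [Algebra k kb] [Field K] [Field M]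
    [Algebra K M] [Algebra kb M] {s : Gal(kb/k) →* Gal(M/K)} {A : ValuationSubring M}
    {ψ : A →+* kb}

/-- the conjugate of a place by `σ` -/
theorem exists_conj (hsec : ∀ σ a, s σ (algebraMap kb M a) = algebraMap kb M (σ a))
    (h : IsOver A ψ) (σ : Gal(kb/k)) :
    ∃ (A₁ : ValuationSubring M) (ψ₁ : A₁ →+* kb), IsOver A₁ ψ₁ ∧
      (∀ x, x ∈ A₁ ↔ (s σ)⁻¹ x ∈ A) ∧
      ∀ (x : M) (h₁ : x ∈ A₁) (h₂ : (s σ)⁻¹ x ∈ A), ψ₁ ⟨x, h₁⟩ = σ (ψ ⟨_, h₂⟩) := by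
  obtain ⟨h1, h2⟩ := h
  let g : M →+* M := ((s σ)⁻¹ : Gal(M/K))
  let A₁ : ValuationSubring M := A.comap g
  have hA₁ : ∀ x, x ∈ A₁ ↔ (s σ)⁻¹ x ∈ A := fun x => Iff.rfl
  let ψ₁ : A₁ →+* kb := (σ : kb →+* kb).comp (ψ.comp
    ((g.comp A₁.subtype).codRestrict A (fun x => (hA₁ x).mp x.2)))
  have hψ₁ : ∀ x : A₁, ψ₁ x = σ (ψ ⟨(s σ)⁻¹ x, (hA₁ x).mp x.2⟩) := fun x => rfl
  refine ⟨A₁, ψ₁, ⟨fun a => ?_, fun x hx => ?_⟩, hA₁, fun x h₁ h₂ => hψ₁ ⟨x, h₁⟩⟩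
  · have e1 : (s σ)⁻¹ (algebraMap kb M a) = algebraMap kb M (σ⁻¹ a) := by
      rw [← map_inv]
      exact hsec σ⁻¹ a
    obtain ⟨h5, h6⟩ := h1 (σ⁻¹ a)
    have h7 : algebraMap kb M a ∈ A₁ := by
      rw [hA₁, e1]
      exact h5
    refine ⟨h7, ?_⟩
    rw [hψ₁]
    have e2 : (⟨(s σ)⁻¹ (algebraMap kb M a), (hA₁ _).mp h7⟩ : A) =
      ⟨algebraMap kb M (σ⁻¹ a), h5⟩ := Subtype.ext e1
    rw [e2, h6]
    exact σ.apply_symm_apply a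
  · rw [hψ₁] at hx
    have h5 := h2 ⟨(s σ)⁻¹ x, (hA₁ x).mp x.2⟩ fun h0 => hx (by rw [h0, _root_.map_zero])
    rw [hA₁, map_inv₀]
    exact h5

end conj

universe u in
/-- A place respected by `s` on an open subgroup: `s` is the section of the place over the field of
its values on `K`, and it is the only such place over its restriction to `K`. -/
theorem section_of_open {k : Type u} [Field k] [NumberField k]
    {K : Type*} [Field K] [Algebra k K] (hK : (⊤ : IntermediateField k K).FG)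
    (htr : Algebra.trdeg k K = 1) (R₀ : Subalgebra k K) (hfg : R₀.FG)
    {M : Type*} [Field M] [Algebra K M] [IsGalois K M]
    [Algebra (AlgebraicClosure k) M] [Algebra k M]
    [IsScalarTower k K M] [IsScalarTower k (AlgebraicClosure k) M]
    (hM : IsMaxUnramOver R₀ K M (AlgebraicClosure k))
    (s : Gal(AlgebraicClosure k/k) →* Gal(M/K))
    (hsec : ∀ σ a, s σ (algebraMap (AlgebraicClosure k) M a) =
      algebraMap (AlgebraicClosure k) M (σ a))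
    {A₀ : ValuationSubring M} {ψ₀ : A₀ →+* AlgebraicClosure k}
    (hR : ∀ r : R₀, algebraMap K M r ∈ A₀) (h₀ : IsOver A₀ ψ₀)
    (Δ : Subgroup Gal(AlgebraicClosure k/k)) (hΔ : IsOpen (Δ : Set Gal(AlgebraicClosure k/k)))
    (hr₀ : ResOn s A₀ ψ₀ Δ) :
    Sel.IsSectionAt s A₀ ψ₀ ∧
      ∀ (A₁ : ValuationSubring M) (ψ₁ : A₁ →+* AlgebraicClosure k), Sel.IsSectionAt s A₁ ψ₁ →
        (∀ (f : K) (h : algebraMap K M f ∈ A₀), ∃ h' : algebraMap K M f ∈ A₁,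
          ψ₁ ⟨_, h'⟩ = ψ₀ ⟨_, h⟩) →
        A₁ = A₀ ∧ ∀ (a : A₁) (b : A₀), (a : M) = b → ψ₁ a = ψ₀ b := by
  set kb := AlgebraicClosure k with hkbdef
  have hstab : Δ ≤ stab K A₀ ψ₀ := by
    intro σ hσ f h
    obtain ⟨h1, h2⟩ := hr₀ σ hσ ⟨algebraMap K M f, h⟩
    rw [← h2]
    congr 1
    exact Subtype.ext ((s σ).commutes f)
  have hopen : IsOpen ((stab K A₀ ψ₀ : Subgroup Gal(kb/k)) : Set Gal(kb/k)) :=
    Subgroup.isOpen_mono hstab hΔ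
  refine ⟨⟨h₀.1, h₀.2, hopen, fun σ hσ x => ?_⟩, fun A₁ ψ₁ hA₁ hagr => ?_⟩
  · obtain ⟨A₁, ψ₁, p1, p2, p3⟩ := exists_conj hsec h₀ σ
    have hKA : ∀ f : K, (s σ)⁻¹ (algebraMap K M f) = algebraMap K M f := fun f =>
      ((s σ)⁻¹).commutes f
    let Δ' : Subgroup Gal(kb/k) := Δ ⊓ Δ.comap (MulAut.conj σ⁻¹).toMonoidHom
    have hΔ' : IsOpen (Δ' : Set Gal(kb/k)) := by
      refine hΔ.inter (hΔ.preimage ?_)
      change Continuous fun x => σ⁻¹ * x * σ⁻¹⁻¹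
      fun_prop
    have hr₀' : ResOn s A₀ ψ₀ Δ' := fun τ hτ => hr₀ τ hτ.1
    have hr₁' : ResOn s A₁ ψ₁ Δ' := by
      rintro τ ⟨-, hτ⟩ y
      have h1 : σ⁻¹ * τ * σ ∈ Δ := by
        have h2 : σ⁻¹ * τ * σ⁻¹⁻¹ ∈ Δ := hτ
        rwa [inv_inv] at h2
      have hy : (s σ)⁻¹ (y : M) ∈ A₀ := (p2 _).mp y.2
      obtain ⟨h3, h4⟩ := hr₀ _ h1 ⟨_, hy⟩
      have h5 : (s σ)⁻¹ (s τ y) = s (σ⁻¹ * τ * σ) ((s σ)⁻¹ (y : M)) := by
        rw [← AlgEquiv.mul_apply, ← AlgEquiv.mul_apply, map_mul, map_mul, map_inv]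
        congr 1
        group
      have h6 : (s σ)⁻¹ (s τ y) ∈ A₀ := by rw [h5]; exact h3
      have h7 : s τ y ∈ A₁ := (p2 _).mpr h6
      refine ⟨h7, ?_⟩
      rw [p3 _ h7 h6, p3 _ y.2 hy]
      have h8 : (⟨(s σ)⁻¹ (s τ y), h6⟩ : A₀) = ⟨_, h3⟩ := Subtype.ext h5
      rw [h8, h4, ← AlgEquiv.mul_apply, ← AlgEquiv.mul_apply]
      congr 1
      group
    obtain ⟨q1, q2⟩ := place_uniq hK htr R₀ hfg hM s hsec hR h₀ p1 (fun f hf => by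
      have h1 : (s σ)⁻¹ (algebraMap K M f) ∈ A₀ := by rw [hKA]; exact hf
      refine ⟨(p2 _).mpr h1, ?_⟩
      rw [p3 _ _ h1]
      have h2 : (⟨(s σ)⁻¹ (algebraMap K M f), h1⟩ : A₀) = ⟨_, hf⟩ := Subtype.ext (hKA f)
      rw [h2]
      exact hσ f hf) Δ' hΔ' hr₀' hr₁'
    have e1 : (s σ)⁻¹ (s σ (x : M)) = x := (s σ).symm_apply_apply x
    have h1 : (s σ)⁻¹ (s σ (x : M)) ∈ A₀ := by rw [e1]; exact x.2
    have h2 : s σ (x : M) ∈ A₁ := (p2 _).mpr h1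
    have h3 : s σ (x : M) ∈ A₀ := q1 ▸ h2
    refine ⟨h3, ?_⟩
    rw [← q2 ⟨_, h2⟩ ⟨_, h3⟩ rfl, p3 _ h2 h1]
    congr 2
    exact Subtype.ext e1
  · obtain ⟨g1, g2, g3, g4⟩ := hA₁
    refine place_uniq hK htr R₀ hfg hM s hsec hR h₀ ⟨g1, g2⟩ hagr (Δ ⊓ stab K A₁ ψ₁)
      (hΔ.inter g3) (fun τ hτ => hr₀ τ hτ.1) (fun τ hτ => g4 τ hτ.2)

end Pool.Agent.Lib.MP_2f3286_ag.SNeigh
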