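import Mathlib
import Pool.Agent.Lib.MP_2f3286_ag.Pt.OverDefs
import Pool.Agent.Lib.MP_2f3286_ag.Koe.Restrict
import Pool.Agent.Lib.MP_2f3286_ag.Top.Defs
import Pool.Agent.Lib.MP_2f3286_ag.Full.Cheb

/-!
# Passing to a finite extension of the base field and of the function field
-/

open IsDedekindDomain NumberField

namespace Pool.Agent.Lib.MP_2f3286_ag.SNeigh

open Pool.Agent.Lib.MP_2f3286_ag.Pt Pool.Agent.Lib.MP_2f3286_ag.Koe

theorem alg_gen {R M : Type*} [CommRing R] [Field M] [Algebra R M] (x : R) :
    algebraMap R (AlgebraicClosure M) x =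
      algebraMap M (AlgebraicClosure M) (algebraMap R M x) :=
  IsScalarTower.algebraMap_apply R M (AlgebraicClosure M) x

/-- the functions of `R` over the larger field -/
def upR {k K : Type*} (F L M : Type*) [Field k] [Field K] [Algebra k K] [Field F] [Field L]
    [Field M] [Algebra F L] [Algebra K M] [Algebra L M] (R : Subalgebra k K) : Subalgebra F L :=
  Algebra.adjoin F {y : L | ∃ r : R, algebraMap L M y = algebraMap K M r}

section

variable {k kb K M : Type*} [Field k] [Field kb] [Field K] [Field M] [Algebra k K]
  [Algebra K M] [Algebra kb M] {F Fb L : Type*} [Field F] [Field Fb] [Field L] [Algebra F Fb]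
  [Algebra F L] [Algebra L M] [Algebra Fb M] [Algebra F M] [IsScalarTower F L M]
  [IsScalarTower F Fb M]

/-- The valuation rings containing `F` and `R` contain the larger ring. -/
theorem upR_mem {R : Subalgebra k K} (V : Subring M) (hF : ∀ a : F, algebraMap F M a ∈ V)
    (hR : ∀ r : R, algebraMap K M r ∈ V) :
    ∀ y : upR F L M R, algebraMap L M y ∈ V := by
  rintro ⟨y, hy⟩
  change algebraMap L M y ∈ V
  induction hy using Algebra.adjoin_induction with
  | mem y hy =>
    obtain ⟨r, hr⟩ := hy
    rw [hr]
    exact hR r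
  | algebraMap a =>
    rw [← IsScalarTower.algebraMap_apply]
    exact hF a
  | add a b _ _ ha hb => rw [map_add]; exact add_mem ha hb
  | mul a b _ _ ha hb => rw [map_mul]; exact mul_mem ha hb

/-- `M` is also the maximal unramified extension of `L`. -/
theorem maxUnram_trans (e : Fb ≃+* kb)
    (he : ∀ a : Fb, algebraMap Fb M a = algebraMap kb M (e a))
    (hKL : ∀ x : K, ∃ y : L, algebraMap L M y = algebraMap K M x)
    (R : Subalgebra k K) (hM : IsMaxUnramOver R K M kb) :
    IsMaxUnramOver (upR F L M R) L M Fb := by
  have e1 : ∀ x : K, algebraMap K (AlgebraicClosure M) x =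
      algebraMap M (AlgebraicClosure M) (algebraMap K M x) := fun x =>
    IsScalarTower.algebraMap_apply K M (AlgebraicClosure M) x
  have e2 : ∀ x : L, algebraMap L (AlgebraicClosure M) x =
      algebraMap M (AlgebraicClosure M) (algebraMap L M x) := fun x =>
    IsScalarTower.algebraMap_apply L M (AlgebraicClosure M) x
  have e3 : ∀ x : kb, algebraMap kb (AlgebraicClosure M) x =
      algebraMap M (AlgebraicClosure M) (algebraMap kb M x) := fun x =>
    IsScalarTower.algebraMap_apply kb M (AlgebraicClosure M) x
  have e4 : ∀ x : Fb, algebraMap Fb (AlgebraicClosure M) x =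
      algebraMap M (AlgebraicClosure M) (algebraMap Fb M x) := fun x =>
    IsScalarTower.algebraMap_apply Fb M (AlgebraicClosure M) x
  intro x
  constructor
  · rintro ⟨m, rfl⟩ V ⟨⟨h1, h2⟩, h3⟩ g hg
    let g' : Gal(AlgebraicClosure M/K) := AlgEquiv.ofRingEquiv
      (f := (g : AlgebraicClosure M ≃+* AlgebraicClosure M)) (fun a => by
        obtain ⟨y, hy⟩ := hKL a
        change g (algebraMap K (AlgebraicClosure M) a) = _
        rw [e1, ← hy, ← e2]
        exact g.commutes y)
    refine (hM _).mp ⟨m, rfl⟩ V ⟨⟨fun a => ?_, h2⟩, fun r => ?_⟩ g' hg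
    · have h4 := h1 (e.symm a)
      rw [e4, he, e.apply_symm_apply] at h4
      rw [e3]
      exact h4
    · obtain ⟨y, hy⟩ := hKL r
      have h4 := h3 ⟨y, Algebra.subset_adjoin ⟨r, hy⟩⟩
      rw [alg_gen] at h4 ⊢
      change algebraMap M (AlgebraicClosure M) (algebraMap K M r) ∈ V
      rw [← hy]
      exact h4
  · intro h
    refine (hM x).mpr fun V hV g hg => ?_
    have hgM : ∀ m : M, g (algebraMap M (AlgebraicClosure M) m) =
        algebraMap M (AlgebraicClosure M) m := fun m => (hM _).mp ⟨m, rfl⟩ V hV g hg
    let g' : Gal(AlgebraicClosure M/L) := AlgEquiv.ofRingEquiv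
      (f := (g : AlgebraicClosure M ≃+* AlgebraicClosure M)) (fun a => by
        change g (algebraMap L (AlgebraicClosure M) a) = _
        rw [e2]
        exact hgM _)
    obtain ⟨⟨h1, h2⟩, h3⟩ := hV
    have h4 : ∀ a : Fb, algebraMap Fb (AlgebraicClosure M) a ∈ V := by
      intro a
      have h5 := h1 (e a)
      rw [e3, ← he] at h5
      rw [e4]
      exact h5
    refine h V ⟨⟨h4, h2⟩, fun y => ?_⟩ g' hg
    rw [alg_gen]
    exact upR_mem (V.toSubring.comap (algebraMap M (AlgebraicClosure M))) (fun a => by
      change algebraMap M (AlgebraicClosure M) (algebraMap F M a) ∈ V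
      rw [IsScalarTower.algebraMap_apply F Fb M, ← e4]
      exact h4 _) (fun r => by
      have h5 := h3 r
      rw [alg_gen] at h5
      exact h5) y

theorem upR_fg (hKL : ∀ x : K, ∃ y : L, algebraMap L M y = algebraMap K M x) [Algebra k F]
    (hk : ∀ a : k, algebraMap K M (algebraMap k K a) = algebraMap F M (algebraMap k F a))
    {R : Subalgebra k K} (hR : R.FG) : (upR F L M R).FG := by
  classical
  obtain ⟨T, hT⟩ := hR
  choose f hf using hKL
  refine ⟨T.image f, ?_⟩
  apply le_antisymm
  · refine Algebra.adjoin_le ?_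
    intro y hy
    rw [Finset.coe_image] at hy
    obtain ⟨x, hx, rfl⟩ := hy
    have hxR : x ∈ R := by rw [← hT]; exact Algebra.subset_adjoin hx
    exact Algebra.subset_adjoin ⟨⟨x, hxR⟩, hf x⟩
  · refine Algebra.adjoin_le ?_
    rintro y ⟨⟨r, hr⟩, hy⟩
    rw [← hT] at hr
    have hinj : Function.Injective (algebraMap L M) := (algebraMap L M).injective
    have key : ∀ r ∈ Algebra.adjoin k (T : Set K), ∀ y : L, algebraMap L M y = algebraMap K M r →
        y ∈ Algebra.adjoin F ((T.image f : Finset L) : Set L) := by
      intro r hr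
      induction hr using Algebra.adjoin_induction with
      | mem x hx =>
        intro y hy
        rw [← hf x] at hy
        rw [hinj hy]
        apply Algebra.subset_adjoin
        rw [Finset.coe_image]
        exact ⟨x, hx, rfl⟩
      | algebraMap a =>
        intro y hy
        rw [hk, IsScalarTower.algebraMap_apply F L M] at hy
        rw [hinj hy]
        exact Subalgebra.algebraMap_mem _ _
      | add a b _ _ ha hb =>
        intro y hy
        have h1 : y = f a + f b := by
          apply hinj
          rw [hy, map_add, map_add, hf, hf]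
        rw [h1]
        exact add_mem (ha _ (hf a)) (hb _ (hf b))
      | mul a b _ _ ha hb =>
        intro y hy
        have h1 : y = f a * f b := by
          apply hinj
          rw [hy, map_mul, map_mul, hf, hf]
        rw [h1]
        exact mul_mem (ha _ (hf a)) (hb _ (hf b))
    exact key r hr y hy

end

end Pool.Agent.Lib.MP_2f3286_ag.SNeigh
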