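import Mathlib
import Pool.Agent.Lib.MP_2f3286_ag.SNeigh.Trans

/-!
# Local places over a finite extension of the base field
-/

open IsDedekindDomain NumberField

namespace Pool.Agent.Lib.MP_2f3286_ag.SNeigh

open Pool.Agent.Lib.MP_2f3286_ag.Pt Pool.Agent.Lib.MP_2f3286_ag.Koe
  Pool.Agent.Lib.MP_2f3286_ag.Full

/-- A place over `k_v` gives a place over `F_w`, for `w` above `v`. -/
theorem exists_local {k kb K M : Type*} [Field k] [NumberField k] [Field kb] [Algebra k kb]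
    [IsGalois k kb] [Field K] [Field M] [Algebra K M] [Algebra kb M]
    (s : Gal(kb/k) →* Gal(M/K))
    (hsec : ∀ σ a, s σ (algebraMap kb M a) = algebraMap kb M (σ a))
    {F : Type*} [Field F] [NumberField F] [Algebra k F] [Algebra F kb] [IsScalarTower k F kb]
    {Fb : Type*} [Field Fb] [Algebra F Fb] (e : Fb ≃ₐ[F] kb) [Algebra Fb M]
    (he : ∀ a : Fb, algebraMap Fb M a = algebraMap kb M (e a))
    {L : Type*} [Field L] [Algebra L M]
    (hL : ∀ σ : Gal(kb/k), (∀ a : F, σ (algebraMap F kb a) = algebraMap F kb a) →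
      ∀ x : L, s σ (algebraMap L M x) = algebraMap L M x)
    (v : HeightOneSpectrum (𝓞 k)) (w : HeightOneSpectrum (𝓞 F)) [w.asIdeal.LiesOver v.asIdeal]
    (ι : kb →ₐ[k] AlgebraicClosure (v.adicCompletion k)) (A : ValuationSubring M)
    (φ : A →+* AlgebraicClosure (v.adicCompletion k))
    (h : Sel.IsPlaceOf s (v.adicCompletion k)
      (ι : _ →+* AlgebraicClosure (v.adicCompletion k)) A φ) :
    ∃ (ι' : Fb →ₐ[F] AlgebraicClosure (w.adicCompletion F)) (A' : ValuationSubring M)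
      (φ' : A' →+* AlgebraicClosure (w.adicCompletion F)),
      Sel.IsPlaceOf (resS s e hL) (w.adicCompletion F)
        (ι' : _ →+* AlgebraicClosure (w.adicCompletion F)) A' φ' ∧
      ∃ ρ : Gal(kb/k), ∀ x, x ∈ A' ↔ s ρ x ∈ A := by
  obtain ⟨j, ρ, hj, hτ⟩ := exists_j_tower v w ι
  obtain ⟨h1, h2, h3⟩ := h
  let ι' : Fb →ₐ[F] AlgebraicClosure (w.adicCompletion F) :=
    { j.comp ((ι : kb →+* _).comp ((ρ : kb →+* kb).comp (e : Fb →+* kb))) with
      commutes' := fun a => by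
        change j (ι (ρ (e (algebraMap F Fb a)))) = _
        rw [e.commutes, hj]
        exact (IsScalarTower.algebraMap_apply F (w.adicCompletion F) _ a).symm }
  have hι' : ∀ a, ι' a = j (ι (ρ (e a))) := fun a => rfl
  let g : M →+* M := (s ρ : Gal(M/K))
  let A' : ValuationSubring M := A.comap g
  have hA' : ∀ x, x ∈ A' ↔ s ρ x ∈ A := fun x => Iff.rfl
  let φ' : A' →+* AlgebraicClosure (w.adicCompletion F) := j.comp (φ.comp
    ((g.comp A'.subtype).codRestrict A (fun x => (hA' x).mp x.2)))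
  have hφ' : ∀ x : A', φ' x = j (φ ⟨s ρ x, (hA' x).mp x.2⟩) := fun x => rfl
  refine ⟨ι', A', φ', ⟨fun a => ?_, fun x hx => ?_, fun σ τ hστ x => ?_⟩, ρ, hA'⟩
  · have e1 : s ρ (algebraMap Fb M a) = algebraMap kb M (ρ (e a)) := by rw [he, hsec]
    obtain ⟨h5, h6⟩ := h1 (ρ (e a))
    have h7 : algebraMap Fb M a ∈ A' := by
      rw [hA', e1]
      exact h5
    refine ⟨h7, ?_⟩
    rw [hφ']
    have e2 : (⟨s ρ (algebraMap Fb M a), (hA' _).mp h7⟩ : A) =
      ⟨algebraMap kb M (ρ (e a)), h5⟩ := Subtype.ext e1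
    rw [e2, h6]
    rfl
  · rw [hφ'] at hx
    have h5 := h2 ⟨s ρ x, (hA' x).mp x.2⟩ fun h0 => hx (by rw [h0, _root_.map_zero])
    rw [hA', map_inv₀]
    exact h5
  · obtain ⟨τ', hτ'⟩ := hτ τ
    let σ' : Gal(kb/k) := resG e σ
    have hσ' : ∀ x : kb, σ' x = e (σ (e.symm x)) := fun x => rfl
    have h4 : ∀ y, ι ((ρ * σ' * ρ⁻¹) y) = τ' (ι y) := by
      intro y
      apply j.injective
      rw [hτ']
      have h5 := hστ (e.symm (ρ⁻¹ y))
      change ι' (σ (e.symm (ρ⁻¹ y))) = τ (ι' (e.symm (ρ⁻¹ y))) at h5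
      rw [hι', hι', e.apply_symm_apply] at h5
      have h6 : ρ (ρ⁻¹ y) = y := ρ.apply_symm_apply y
      rw [h6] at h5
      exact h5
    obtain ⟨h5, h6⟩ := h3 _ τ' h4 ⟨s ρ x, (hA' x).mp x.2⟩
    have h7 : s (ρ * σ' * ρ⁻¹) (s ρ (x : M)) = s ρ (s σ' x) := by
      rw [← AlgEquiv.mul_apply, ← AlgEquiv.mul_apply, ← map_mul, ← map_mul]
      congr 2
      group
    have h8 : s ρ (s σ' x) ∈ A := by rw [← h7]; exact h5
    have h9 : s σ' (x : M) ∈ A' := (hA' _).mpr h8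
    refine ⟨h9, ?_⟩
    change φ' ⟨s σ' x, h9⟩ = _
    rw [hφ', hφ']
    have h10 : (⟨s ρ (s σ' x), (hA' _).mp h9⟩ : A) = ⟨_, h5⟩ := Subtype.ext h7.symm
    rw [h10, h6, hτ']

end Pool.Agent.Lib.MP_2f3286_ag.SNeigh
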