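import Mathlib
import Pool.Agent.Lib.MP_2f3286_ag.SNeigh.Local
import Pool.Agent.Lib.MP_2f3286_ag.SNeigh.Desc
import Pool.Agent.Lib.MP_2f3286_ag.Koe.FDefs

/-!
# Values of points at local places
-/

open WeierstrassCurve WeierstrassCurve.Affine WeierstrassCurve.Affine.Point
open IsDedekindDomain NumberField

namespace Pool.Agent.Lib.MP_2f3286_ag.SNeigh

open Pool.Agent.Lib.MP_2f3286_ag.Pt Pool.Agent.Lib.MP_2f3286_ag.Top
  Pool.Agent.Lib.MP_2f3286_ag.E Pool.Agent.Lib.MP_2f3286_ag

open scoped Classical in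
/-- The value of a point at a local place at which `s` is the section is given by the classes. -/
theorem hasValue_local {F : Type*} [Field F] [NumberField F]
    (W : WeierstrassCurve F) [W.IsShortNF] [W.IsElliptic]
    {L M : Type*} [Field L] [Field M] [Algebra F L] [Algebra L M]
    [Algebra (AlgebraicClosure F) M] [Algebra F M] [IsScalarTower F L M]
    [IsScalarTower F (AlgebraicClosure F) M]
    (s : Gal(AlgebraicClosure F/F) →* Gal(M/L)) (w : HeightOneSpectrum (𝓞 F))
    (ι : AlgebraicClosure F →ₐ[F] AlgebraicClosure (w.adicCompletion F))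
    (A : ValuationSubring M) (φ : A →+* AlgebraicClosure (w.adicCompletion F))
    (h : Sel.IsPlaceOf s (w.adicCompletion F)
      (ι : _ →+* AlgebraicClosure (w.adicCompletion F)) A φ)
    (η : (W⁄L).Point) (Q : (W⁄F).Point) (hcl : ∀ n : ℕ, 1 ≤ n → Sel.SameClass s n η Q) :
    Sel.HasValue A φ η (baseChange F (w.adicCompletion F) Q) := by
  have hgal : IsGalois (w.adicCompletion F) (AlgebraicClosure (w.adicCompletion F)) := by
    have : CharZero (w.adicCompletion F) := charZero_of_injective_algebraMap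
      (algebraMap F (w.adicCompletion F)).injective
    infer_instance
  let x : LocalPoint s w := LocalPoint.ofPlace ι A φ h
  have hWv : (W⁄(w.adicCompletion F)).Δ ≠ 0 := by
    rw [base_Δ]
    exact fun h => Δ_ne_zero_of_isElliptic W ((map_eq_zero _).1 h)
  have hval : x.isPlaceOf.valK s η = baseChange F (w.adicCompletion F) Q := by
    rw [← sub_eq_zero]
    apply eq_zero_of_divisible' w hWv
    intro n hn
    obtain ⟨z, hz⟩ := x.isPlaceOf.valK_class s (hcl n hn)
    exact ⟨z, by rw [hz, add_sub_cancel_left]⟩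
  refine hasValue_ofPlace h (x.hasValue η _ ?_)
  rw [← x.isPlaceOf.valK_spec s η, hval]

open scoped Classical in
/-- values of a point of a subfield -/
theorem hasValue_up {F L M E Eb Eb' : Type*} [Field F] [Field L] [Field M] [Field E] [Field Eb]
    [Field Eb'] [Algebra F L] [Algebra L M] [Algebra F M] [IsScalarTower F L M] [Algebra F E]
    [Algebra E Eb] [Algebra E Eb'] (e : Eb →ₐ[E] Eb') {A : ValuationSubring M} {φ : A →+* Eb}
    {φ' : A →+* Eb'} (he : ∀ x, φ' x = e (φ x))
    {W : WeierstrassCurve F} {η : (W⁄L).Point} {y : (W⁄E).Point} (h : Sel.HasValue A φ η y) :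
    Sel.HasValue A φ' (Point.baseChange L M η) y := by
  rcases η with _ | ⟨a, b, hab⟩
  · exact h
  · rcases h with ⟨h1, h2⟩ | ⟨a', b', h', h1, ⟨h2, h3⟩, ⟨h4, h5⟩⟩
    · exact Or.inl ⟨h1, h2⟩
    · refine Or.inr ⟨a', b', h', h1, ⟨h2, ?_⟩, ⟨h4, ?_⟩⟩
      · exact (he _).trans ((congrArg e h3).trans (e.commutes a'))
      · exact (he _).trans ((congrArg e h5).trans (e.commutes b'))

end Pool.Agent.Lib.MP_2f3286_ag.SNeigh
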