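import Mathlib
import Pool.Agent.Lib.MP_2f3286_ag.SNeigh.Value
import Pool.Agent.Lib.MP_2f3286_ag.Koe.Main

/-!
# Sections of the fundamental group of a curve with a neighbourhood mapping to an elliptic curve
-/

open WeierstrassCurve WeierstrassCurve.Affine WeierstrassCurve.Affine.Point
open IsDedekindDomain NumberField

namespace Pool.Agent.Lib.MP_2f3286_ag.SNeigh

open Pool.Agent.Lib.MP_2f3286_ag.Pt Pool.Agent.Lib.MP_2f3286_ag.Top
  Pool.Agent.Lib.MP_2f3286_ag.Koe Pool.Agent.Lib.MP_2f3286_ag.SFull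
  Pool.Agent.Lib.MP_2f3286_ag

/-- A finite extension of `K` inside `M` which contains `F` and `f`. -/
theorem exists_sub {k K M F : Type*} [Field k] [Field K] [Field M] [Field F] [Algebra k K]
    [Algebra K M] [Algebra k M] [IsScalarTower k K M] [Algebra k F] [Algebra F M]
    [IsScalarTower k F M] [FiniteDimensional k F] [Algebra.IsAlgebraic K M]
    (L : IntermediateField K M) (hF : ∀ a : F, algebraMap F M a ∈ L) (f : M) (hf : f ∈ L) :
    ∃ L₁ : IntermediateField K M, L₁ ≤ L ∧ f ∈ L₁ ∧ (∀ a : F, algebraMap F M a ∈ L₁) ∧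
      FiniteDimensional K L₁ := by
  classical
  let b := Module.finBasis k F
  let Z : Set M := Set.range (fun i => algebraMap F M (b i)) ∪ {f}
  have hZ : Z.Finite := (Set.finite_range _).union (Set.finite_singleton _)
  refine ⟨IntermediateField.adjoin K Z, ?_, ?_, ?_, ?_⟩
  · rw [IntermediateField.adjoin_le_iff]
    rintro x (⟨i, rfl⟩ | hx)
    · exact hF _
    · rw [Set.mem_singleton_iff] at hx
      rw [hx]
      exact hf
  · exact IntermediateField.subset_adjoin K Z (Or.inr rfl)
  · intro a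
    rw [← b.sum_repr a, map_sum]
    refine sum_mem fun i _ => ?_
    rw [Algebra.smul_def, map_mul, ← IsScalarTower.algebraMap_apply,
      IsScalarTower.algebraMap_apply k K M]
    exact mul_mem (IntermediateField.algebraMap_mem _ _)
      (IntermediateField.subset_adjoin K Z (Or.inl ⟨i, rfl⟩))
  · have : Finite Z := hZ
    exact IntermediateField.finiteDimensional_adjoin fun x _ =>
      (Algebra.IsAlgebraic.isAlgebraic x).isIntegral

/-- finite generation of the larger field -/
theorem fg_up {k K F L : Type*} [Field k] [Field K] [Field F] [Field L] [Algebra k K]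
    [Algebra K L] [Algebra k L] [IsScalarTower k K L] [FiniteDimensional K L] [Algebra k F]
    [Algebra F L] [IsScalarTower k F L] (hK : (⊤ : IntermediateField k K).FG) :
    (⊤ : IntermediateField F L).FG := by
  rw [IntermediateField.fg_top_iff] at hK ⊢
  have h3 : Algebra.EssFiniteType k L := Algebra.EssFiniteType.comp k K L
  exact Algebra.EssFiniteType.of_comp k F L

section place

open scoped Classical in
universe u v in
/-- The place of a section over a finite extension `F` of `k`, from a function fixed by the section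
over `F` which has one value at all the local places. -/
theorem place_over {k : Type u} [Field k] [NumberField k]
    {K : Type*} [Field K] [Algebra k K] (hK : (⊤ : IntermediateField k K).FG)
    (htr : Algebra.trdeg k K = 1) (R : Subalgebra k K) (hR : R.FG)
    {M : Type*} [Field M] [Algebra K M] [IsGalois K M]
    [Algebra (AlgebraicClosure k) M] [Algebra k M]
    [IsScalarTower k K M] [IsScalarTower k (AlgebraicClosure k) M]
    (hM : IsMaxUnramOver R K M (AlgebraicClosure k))
    (s : Gal(AlgebraicClosure k/k) →* Gal(M/K)) (hs : Continuous s)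
    (hsec : ∀ σ a, s σ (algebraMap (AlgebraicClosure k) M a) =
      algebraMap (AlgebraicClosure k) M (σ a))
    {F : Type v} [Field F] [NumberField F] [Algebra k F]
    [Algebra F (AlgebraicClosure k)] [IsScalarTower k F (AlgebraicClosure k)]
    [Algebra F M] [IsScalarTower F (AlgebraicClosure k) M]
    (e : AlgebraicClosure F ≃ₐ[F] AlgebraicClosure k) [Algebra (AlgebraicClosure F) M]
    (he : ∀ a, algebraMap (AlgebraicClosure F) M a = algebraMap (AlgebraicClosure k) M (e a))
    {L : IntermediateField K M}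
    (hL : ∀ σ : Gal(AlgebraicClosure k/k),
      (∀ a : F, σ (algebraMap F _ a) = algebraMap F _ a) →
      ∀ x : L, s σ (algebraMap L M x) = algebraMap L M x)
    (hFL : ∀ a : F, algebraMap F M a ∈ L)
    (T : Finset (HeightOneSpectrum (𝓞 F)))
    (ι : ∀ w : {w : HeightOneSpectrum (𝓞 F) // w ∉ T},
      AlgebraicClosure F →ₐ[F] AlgebraicClosure (w.1.adicCompletion F))
    (A : {w : HeightOneSpectrum (𝓞 F) // w ∉ T} → ValuationSubring M)
    (φ : ∀ w : {w : HeightOneSpectrum (𝓞 F) // w ∉ T},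
      A w →+* AlgebraicClosure (w.1.adicCompletion F))
    (hφ : ∀ w, Sel.IsPlaceOf (resS s e hL) (w.1.adicCompletion F)
      (ι w : _ →+* AlgebraicClosure (w.1.adicCompletion F)) (A w) (φ w))
    (hA : ∀ w (r : R), algebraMap K M r ∈ A w)
    (f : M) (hfL : f ∈ L) (hft : Transcendental F f) (a : F)
    (hfa : ∀ w, ∃ h : f ∈ A w, φ w ⟨f, h⟩ = ι w (algebraMap F _ a)) :
    ∃ (A₀ : ValuationSubring M) (ψ : A₀ →+* AlgebraicClosure F)
      (Δ : Subgroup Gal(AlgebraicClosure k/k)),
      (∀ r : R, algebraMap K M r ∈ A₀) ∧ IsOver A₀ ((e : _ →+* AlgebraicClosure k).comp ψ) ∧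
      IsOpen (Δ : Set Gal(AlgebraicClosure k/k)) ∧
      ResOn s A₀ ((e : _ →+* AlgebraicClosure k).comp ψ) Δ ∧
      ∃ L₁ : IntermediateField K M, L₁ ≤ L ∧
        IsOpen {τ : Gal(AlgebraicClosure F/F) | ∀ (f : L₁) (h : (f : M) ∈ A₀),
          τ (ψ ⟨f, h⟩) = ψ ⟨f, h⟩} ∧
        ∀ τ : Gal(AlgebraicClosure F/F),
          (∀ (f : L₁) (h : (f : M) ∈ A₀), τ (ψ ⟨f, h⟩) = ψ ⟨f, h⟩) →
          ∀ x : A₀, ∃ h : s (resG e τ) x ∈ A₀, ψ ⟨s (resG e τ) x, h⟩ = τ (ψ x) := by
  have hfin : FiniteDimensional k F := FiniteDimensional.right ℚ k F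
  have t3 : IsScalarTower k F M := IsScalarTower.of_algebraMap_eq fun a => by
    rw [IsScalarTower.algebraMap_apply F (AlgebraicClosure k) M,
      ← IsScalarTower.algebraMap_apply k F (AlgebraicClosure k),
      ← IsScalarTower.algebraMap_apply k (AlgebraicClosure k) M]
  have t4 : IsScalarTower F (AlgebraicClosure F) M := IsScalarTower.of_algebraMap_eq fun a => by
    rw [he, AlgEquiv.commutes, ← IsScalarTower.algebraMap_apply]
  obtain ⟨L₁, hL₁L, hfL₁, hFL₁, hfd⟩ := exists_sub (k := k) (F := F) L hFL f hfL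
  let iFL : Algebra F L₁ := ((algebraMap F M).codRestrict L₁.toSubfield hFL₁).toAlgebra
  have t7 : IsScalarTower k L₁ M := IsScalarTower.of_algebraMap_eq fun a => rfl
  have t5 : IsScalarTower F L₁ M := IsScalarTower.of_algebraMap_eq fun a => rfl
  have t6 : IsScalarTower k F L₁ := IsScalarTower.of_algebraMap_eq fun a => by
    apply (algebraMap L₁ M).injective
    rw [← IsScalarTower.algebraMap_apply k L₁ M, ← IsScalarTower.algebraMap_apply F L₁ M,
      ← IsScalarTower.algebraMap_apply k F M]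
  have hL₁ : ∀ σ : Gal(AlgebraicClosure k/k),
      (∀ a : F, σ (algebraMap F _ a) = algebraMap F _ a) →
      ∀ x : L₁, s σ (algebraMap L₁ M x) = algebraMap L₁ M x :=
    fun σ hσ x => hL σ hσ ⟨x, hL₁L x.2⟩
  have htr' : Algebra.trdeg F L₁ = 1 := trdeg_fix (k := k) (K := K) (Ω := M) htr
  have hfg : (⊤ : IntermediateField F L₁).FG := fg_up (k := k) (K := K) hK
  let f₁ : L₁ := ⟨f, hfL₁⟩
  have hf₁ : Transcendental F f₁ := by
    intro h
    exact hft ((isAlgebraic_algebraMap_iff (algebraMap L₁ M).injective).2 h)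
  have hfd₁ := finite_of_fg htr' hfg hf₁
  have hKL : ∀ x : K, ∃ y : L₁, algebraMap L₁ M y = algebraMap K M x :=
    fun x => ⟨algebraMap K L₁ x, rfl⟩
  have hM₁ : IsMaxUnramOver (upR F L₁ M R) L₁ M (AlgebraicClosure F) :=
    maxUnram_trans (e : AlgebraicClosure F ≃+* AlgebraicClosure k) he hKL R hM
  have hRfg : (upR F L₁ M R).FG := upR_fg hKL (fun a => by
    rw [← IsScalarTower.algebraMap_apply, ← IsScalarTower.algebraMap_apply]) hR
  have hs₁ := resS_continuous s e hL₁ hs
  have hsec₁ : ∀ (σ : Gal(AlgebraicClosure F/F)) (a : AlgebraicClosure F),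
      resS s e hL₁ σ (algebraMap (AlgebraicClosure F) M a) =
        algebraMap (AlgebraicClosure F) M (σ a) := by
    intro σ a
    rw [resS_apply, he, hsec, resG_apply, e.symm_apply_apply, he]
  have hφ₁ : ∀ w, Sel.IsPlaceOf (resS s e hL₁) (w.1.adicCompletion F)
      (ι w : _ →+* AlgebraicClosure (w.1.adicCompletion F)) (A w) (φ w) :=
    fun w => ⟨(hφ w).1, (hφ w).2.1, fun σ τ h x => (hφ w).2.2 σ τ h x⟩
  have hFA : ∀ w, ∀ a : F, algebraMap F M a ∈ A w := by
    intro w a
    obtain ⟨h, -⟩ := (hφ w).1 (algebraMap F _ a)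
    rwa [← IsScalarTower.algebraMap_apply] at h
  obtain ⟨A₀, ψ, g1, g2, -⟩ := place_full f₁ hf₁ (upR F L₁ M R) hRfg hM₁ (resS s e hL₁) hs₁ hsec₁
    T ι A φ hφ₁ (fun w r => upR_mem (A w).toSubring (hFA w) (hA w) r) a hfa
  obtain ⟨q1, q2, q3, q4⟩ := g2
  -- the open subgroup
  have hgal : IsGalois F (AlgebraicClosure F) := IsAlgClosure.isGalois F _
  let B : Subgroup Gal(AlgebraicClosure F/F) := stab L₁ A₀ ψ
  have hB : IsOpen (B : Set Gal(AlgebraicClosure F/F)) := q3
  let E' : IntermediateField F (AlgebraicClosure F) := IntermediateField.fixedField B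
  have hfix : E'.fixingSubgroup = B :=
    InfiniteGalois.fixingSubgroup_fixedField ⟨B, Subgroup.isClosed_of_isOpen B hB⟩
  have hE' : FiniteDimensional F E' := by
    rw [← InfiniteGalois.isOpen_iff_finite, hfix]
    exact hB
  let E₁ : IntermediateField F (AlgebraicClosure k) := E'.map (e : _ →ₐ[F] AlgebraicClosure k)
  have hE₁ : FiniteDimensional F E₁ := LinearEquiv.finiteDimensional
    (E'.equivMap (e : _ →ₐ[F] AlgebraicClosure k)).toLinearEquiv
  let E₂ : IntermediateField k (AlgebraicClosure k) := E₁.restrictScalars k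
  have hE₂ : FiniteDimensional k E₂ := by
    have h1 : FiniteDimensional k E₁ := FiniteDimensional.trans k F E₁
    exact h1
  have hmem : ∀ x, x ∈ E₂ ↔ e.symm x ∈ E' := by
    intro x
    constructor
    · rintro ⟨y, hy, rfl⟩
      change e.symm (e y) ∈ E'
      rw [e.symm_apply_apply]
      exact hy
    · intro h
      exact ⟨e.symm x, h, e.apply_symm_apply x⟩
  refine ⟨A₀, ψ, E₂.fixingSubgroup, fun r => ?_, ⟨fun b => ?_, fun x hx => ?_⟩,
    IntermediateField.fixingSubgroup_isOpen E₂, fun σ hσ x => ?_, L₁, hL₁L, q3,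
    fun τ hτ x => q4 τ hτ x⟩
  · obtain ⟨y, hy⟩ := hKL r
    have h1 := g1 ⟨y, Algebra.subset_adjoin ⟨r, hy⟩⟩
    rw [← hy]
    exact h1
  · obtain ⟨h1, h2⟩ := q1 (e.symm b)
    have h3 : algebraMap (AlgebraicClosure F) M (e.symm b) =
        algebraMap (AlgebraicClosure k) M b := by rw [he, e.apply_symm_apply]
    refine ⟨h3 ▸ h1, ?_⟩
    have h4 : (⟨algebraMap (AlgebraicClosure k) M b, h3 ▸ h1⟩ : A₀) = ⟨_, h1⟩ :=
      Subtype.ext h3.symm
    rw [h4]
    change e (ψ ⟨_, h1⟩) = b
    rw [h2, e.apply_symm_apply]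
  · refine q2 x fun h0 => hx ?_
    change e (ψ x) = 0
    rw [h0, _root_.map_zero]
  · rw [IntermediateField.mem_fixingSubgroup_iff] at hσ
    have hσF : ∀ a : F, σ (algebraMap F _ a) = algebraMap F _ a := by
      intro a
      apply hσ
      rw [hmem, AlgEquiv.commutes]
      exact E'.algebraMap_mem a
    obtain ⟨τ, hτ, hτ'⟩ := resG_surj e σ hσF
    have h1 : τ ∈ B := by
      rw [← hfix, IntermediateField.mem_fixingSubgroup_iff]
      intro x hx
      rw [hτ', hσ (e x) (by rw [hmem, e.symm_apply_apply]; exact hx), e.symm_apply_apply]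
    obtain ⟨h2, h3⟩ := q4 τ h1 x
    have h4 : resS s e hL₁ τ (x : M) = s σ x := by rw [resS_apply, hτ]
    refine ⟨h4 ▸ h2, ?_⟩
    have h5 : (⟨s σ x, h4 ▸ h2⟩ : A₀) = ⟨_, h2⟩ := Subtype.ext h4.symm
    rw [h5]
    change e (ψ ⟨_, h2⟩) = σ (e (ψ x))
    rw [h3, hτ', e.apply_symm_apply]

end place

end Pool.Agent.Lib.MP_2f3286_ag.SNeigh
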