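import Mathlib
import Pool.Agent.Lib.MP_2f3286_ag.SNeigh.Main

/-!
# Sections with a neighbourhood that has two independent maps to an elliptic curve of rank one
-/

open WeierstrassCurve WeierstrassCurve.Affine WeierstrassCurve.Affine.Point
open IsDedekindDomain NumberField

namespace Pool.Agent.Lib.MP_2f3286_ag.SNeigh

open Pool.Agent.Lib.MP_2f3286_ag.Pt Pool.Agent.Lib.MP_2f3286_ag.Top
  Pool.Agent.Lib.MP_2f3286_ag.Koe Pool.Agent.Lib.MP_2f3286_ag.SFull
  Pool.Agent.Lib.MP_2f3286_ag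

section sep

variable {k kb K M : Type*} [Field k] [Field kb] [Algebra k kb] [Field K] [Field M]
    [Algebra K M] [Algebra kb M] {s : Gal(kb/k) →* Gal(M/K)} {A : ValuationSubring M}
    {ψ : A →+* kb} {F : Type*} [Field F] [Algebra F kb] [Algebra F M]

/-- If the values of the fixed points determine the place on `K`, then its values on `K` lie in
`F`. -/
theorem fix_of_sep (hsec : ∀ σ a, s σ (algebraMap kb M a) = algebraMap kb M (σ a))
    (h : IsOver A ψ) {W : WeierstrassCurve F} (Ψ : (W⁄M).Point → (W⁄F).Point)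
    (hval : ∀ η, FixedPt s η → Sel.HasValue A ψ η (Ψ η))
    (hsep : ∀ (A₁ : ValuationSubring M) (ψ₁ : A₁ →+* kb),
      (∀ a : kb, ∃ h : algebraMap kb M a ∈ A₁, ψ₁ ⟨algebraMap kb M a, h⟩ = a) →
      (∀ x : A₁, ψ₁ x ≠ 0 → (x : M)⁻¹ ∈ A₁) →
      (∀ η, FixedPt s η → Sel.HasValue A₁ ψ₁ η (Ψ η)) →
      ∀ (f : K) (h : algebraMap K M f ∈ A), ∃ h' : algebraMap K M f ∈ A₁,
        ψ₁ ⟨_, h'⟩ = ψ ⟨_, h⟩)
    (σ : Gal(kb/k)) (hσ : ∀ a : F, σ (algebraMap F kb a) = algebraMap F kb a) (f : K)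
    (hf : algebraMap K M f ∈ A) : σ (ψ ⟨_, hf⟩) = ψ ⟨_, hf⟩ := by
  obtain ⟨A₁, ψ₁, p1, p2, p3⟩ := exists_conj hsec h σ
  have hinv : ∀ x : M, s σ x = x → (s σ)⁻¹ x = x := fun x hx => by
    rw [AlgEquiv.aut_inv, AlgEquiv.symm_apply_eq, hx]
  have hmem : ∀ x : M, s σ x = x → (x ∈ A₁ ↔ x ∈ A) := fun x hx => by rw [p2, hinv x hx]
  have hψ : ∀ (x : M), s σ x = x → ∀ (h₁ : x ∈ A₁) (h₂ : x ∈ A), ψ₁ ⟨x, h₁⟩ = σ (ψ ⟨x, h₂⟩) := by
    intro x hx h₁ h₂
    have h₃ : (s σ)⁻¹ x ∈ A := by rw [hinv x hx]; exact h₂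
    rw [p3 x h₁ h₃]
    congr 2
    exact Subtype.ext (hinv x hx)
  obtain ⟨h', e⟩ := hsep A₁ ψ₁ p1.1 p1.2 (fun η hη => by
    have h5 := hval η hη
    rcases η with _ | ⟨a, b, hab⟩
    · exact h5
    · obtain ⟨ha, hb⟩ := hη σ hσ
      rcases h5 with ⟨h6, h7⟩ | ⟨a', b', h', h6, ⟨h7, h8⟩, ⟨h9, h10⟩⟩
      · exact Or.inl ⟨fun h8 => h6 ((hmem a ha).mp h8), h7⟩
      · refine Or.inr ⟨a', b', h', h6, ⟨(hmem a ha).mpr h7, ?_⟩, ⟨(hmem b hb).mpr h9, ?_⟩⟩
        · exact (hψ a ha _ h7).trans ((congrArg σ h8).trans (hσ a'))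
        · exact (hψ b hb _ h9).trans ((congrArg σ h10).trans (hσ b'))) f hf
  exact (hψ _ ((s σ).commutes f) h' hf).symm.trans e

end sep

open scoped Classical in
universe u v in
theorem neigh_aux {k : Type u} [Field k] [NumberField k]
    {K : Type*} [Field K] [Algebra k K] (hK : (⊤ : IntermediateField k K).FG)
    (htr : Algebra.trdeg k K = 1) (R : Subalgebra k K) (hR : R.FG)
    {M : Type*} [Field M] [Algebra K M] [IsGalois K M]
    [Algebra (AlgebraicClosure k) M] [Algebra k M]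
    [IsScalarTower k K M] [IsScalarTower k (AlgebraicClosure k) M]
    (hM : IsMaxUnramOver R K M (AlgebraicClosure k))
    (s : Gal(AlgebraicClosure k/k) →* Gal(M/K)) (hs : Continuous s)
    (hsec : ∀ σ a, s σ (algebraMap (AlgebraicClosure k) M a) =
      algebraMap (AlgebraicClosure k) M (σ a))
    {F : Type v} [Field F] [NumberField F] [Algebra k F]
    [Algebra F (AlgebraicClosure k)] [IsScalarTower k F (AlgebraicClosure k)]
    [Algebra F M] [IsScalarTower F (AlgebraicClosure k) M]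
    (T : Finset (HeightOneSpectrum (𝓞 F)))
    (hloc : ∀ w ∉ T, ∃ (ι : AlgebraicClosure k →ₐ[F] AlgebraicClosure (w.adicCompletion F))
      (A : ValuationSubring M) (φ : A →+* AlgebraicClosure (w.adicCompletion F)),
      Sel.IsPlaceOf s (w.adicCompletion F)
        (ι : _ →+* AlgebraicClosure (w.adicCompletion F)) A φ ∧ ∀ r : R, algebraMap K M r ∈ A)
    (W : WeierstrassCurve F) [W.IsShortNF] [W.IsElliptic]
    (P : (W⁄F).Point) (hP : ∀ n : ℕ, n ≠ 0 → n • P ≠ 0)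
    (hrk : ∀ Q : (W⁄F).Point, ∃ a : ℤ, IsOfFinAddOrder (Q - a • P))
    (m : ℕ) (hm : 1 ≤ m) (hsha : Sel.ShaKilledBy W T m)
    (η₁ η₂ : (W⁄M).Point) (h₁ : FixedPt s η₁) (h₂ : FixedPt s η₂)
    (hind : ∀ a b : ℤ, (∃ Q : (W⁄F).Point, a • η₁ + b • η₂ = Point.baseChange F M Q) →
      a = 0 ∧ b = 0)
    {L : Type*} [Field L] [Algebra F L] [Algebra L M] [IsScalarTower F L M] [IsGalois L M]
    (hL : ∀ σ : Gal(AlgebraicClosure k/k),
      (∀ a : F, σ (algebraMap F _ a) = algebraMap F _ a) →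
      ∀ x : L, s σ (algebraMap L M x) = algebraMap L M x)
    (hL2 : ∀ x : M, (∀ σ : Gal(AlgebraicClosure k/k),
      (∀ a : F, σ (algebraMap F _ a) = algebraMap F _ a) → s σ x = x) →
      ∃ y : L, algebraMap L M y = x) :
    ∃ (A₀ : ValuationSubring M) (ψ₀ : A₀ →+* AlgebraicClosure k) (Ψ : (W⁄M).Point → (W⁄F).Point),
      (∀ r : R, algebraMap K M r ∈ A₀) ∧ Sel.IsSectionAt s A₀ ψ₀ ∧
      (∀ (A₁ : ValuationSubring M) (ψ₁ : A₁ →+* AlgebraicClosure k), Sel.IsSectionAt s A₁ ψ₁ →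
        (∀ (f : K) (h : algebraMap K M f ∈ A₀), ∃ h' : algebraMap K M f ∈ A₁,
          ψ₁ ⟨_, h'⟩ = ψ₀ ⟨_, h⟩) →
        A₁ = A₀ ∧ ∀ (a : A₁) (b : A₀), (a : M) = b → ψ₁ a = ψ₀ b) ∧
      (∀ η η', FixedPt s η → FixedPt s η' → Ψ (η + η') = Ψ η + Ψ η') ∧
      (∀ η, FixedPt s η → Sel.HasValue A₀ ψ₀ η (Ψ η)) ∧
      (∀ w ∉ T, ∀ (ι' : AlgebraicClosure k →ₐ[F] AlgebraicClosure (w.adicCompletion F))
        (A' : ValuationSubring M) (φ' : A' →+* AlgebraicClosure (w.adicCompletion F)),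
        Sel.IsPlaceOf s (w.adicCompletion F)
          (ι' : _ →+* AlgebraicClosure (w.adicCompletion F)) A' φ' →
        ∀ η, FixedPt s η →
          Sel.HasValue A' φ' η (Point.baseChange F (w.adicCompletion F) (Ψ η))) ∧
      ((∀ (A₁ : ValuationSubring M) (ψ₁ : A₁ →+* AlgebraicClosure k),
          (∀ a, ∃ h : algebraMap (AlgebraicClosure k) M a ∈ A₁, ψ₁ ⟨_, h⟩ = a) →
          (∀ x : A₁, ψ₁ x ≠ 0 → (x : M)⁻¹ ∈ A₁) →
          (∀ η, FixedPt s η → Sel.HasValue A₁ ψ₁ η (Ψ η)) →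
          ∀ (f : K) (h : algebraMap K M f ∈ A₀), ∃ h' : algebraMap K M f ∈ A₁,
            ψ₁ ⟨_, h'⟩ = ψ₀ ⟨_, h⟩) →
        ∀ σ : Gal(AlgebraicClosure k/k), (∀ a : F, σ (algebraMap F _ a) = algebraMap F _ a) →
          ∀ (f : K) (h : algebraMap K M f ∈ A₀), σ (ψ₀ ⟨_, h⟩) = ψ₀ ⟨_, h⟩) := by
  have hfin : FiniteDimensional k F := FiniteDimensional.right ℚ k F
  have hFk : Algebra.IsAlgebraic F (AlgebraicClosure k) :=
    Algebra.IsAlgebraic.tower_top (K := k) F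
  have : IsAlgClosure F (AlgebraicClosure k) := ⟨inferInstance, inferInstance⟩
  let e : AlgebraicClosure F ≃ₐ[F] AlgebraicClosure k :=
    IsAlgClosure.equiv F (AlgebraicClosure F) (AlgebraicClosure k)
  let iFb : Algebra (AlgebraicClosure F) M :=
    ((algebraMap (AlgebraicClosure k) M).comp (e : _ →+* AlgebraicClosure k)).toAlgebra
  have he : ∀ a : AlgebraicClosure F, algebraMap (AlgebraicClosure F) M a =
      algebraMap (AlgebraicClosure k) M (e a) := fun _ => rfl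
  have t1 : IsScalarTower F (AlgebraicClosure F) M := IsScalarTower.of_algebraMap_eq fun a => by
    rw [he, AlgEquiv.commutes, ← IsScalarTower.algebraMap_apply]
  have t3 : IsScalarTower k F M := IsScalarTower.of_algebraMap_eq fun a => by
    rw [IsScalarTower.algebraMap_apply F (AlgebraicClosure k) M,
      ← IsScalarTower.algebraMap_apply k F (AlgebraicClosure k),
      ← IsScalarTower.algebraMap_apply k (AlgebraicClosure k) M]
  have hLM : Algebra.IsAlgebraic L M := inferInstance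
  have hL' : ∀ σ : Gal(AlgebraicClosure k/k),
      (∀ a : F, σ (algebraMap F _ a) = algebraMap F _ a) →
      ∀ x : fixF s F, s σ (algebraMap (fixF s F) M x) = algebraMap (fixF s F) M x :=
    fun σ hσ x => x.2 σ hσ
  have hmemL : ∀ y : L, algebraMap L M y ∈ fixF s F := fun y σ hσ => hL σ hσ y
  have hFL : ∀ a : F, algebraMap F M a ∈ fixF s F := by
    intro a
    rw [IsScalarTower.algebraMap_apply F L M]
    exact hmemL _
  have htr' : Algebra.trdeg F L = 1 := trdeg_fix (k := k) (K := K) (Ω := M) htr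
  have hKL : ∀ x : K, ∃ y : L, algebraMap L M y = algebraMap K M x :=
    fun x => hL2 _ fun σ _ => (s σ).commutes x
  -- the points over `L`
  have hpt : ∀ η : (W⁄M).Point, FixedPt s η → ∃ η' : (W⁄L).Point, Point.baseChange L M η' = η := by
    intro η hη
    rcases η with _ | ⟨x, y, hxy⟩
    · exact ⟨0, rfl⟩
    · obtain ⟨a, rfl⟩ := hL2 x fun σ hσ => (hη σ hσ).1
      obtain ⟨b, rfl⟩ := hL2 y fun σ hσ => (hη σ hσ).2
      exact ⟨Point.some a b
        ((Affine.baseChange_nonsingular (W := W) (Algebra.ofId L M).injective a b).mp hxy), rfl⟩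
  obtain ⟨η₁', hη₁⟩ := hpt η₁ h₁
  obtain ⟨η₂', hη₂⟩ := hpt η₂ h₂
  have hind' : ∀ a b : ℤ, (∃ Q : (W⁄F).Point, a • η₁' + b • η₂' = Point.baseChange F L Q) →
      a = 0 ∧ b = 0 := by
    rintro a b ⟨Q, hQ⟩
    refine hind a b ⟨Q, ?_⟩
    rw [← hη₁, ← hη₂, ← map_zsmul, ← map_zsmul, ← map_add, hQ]
    exact Top.bc_bc Q
  -- the section over `F`
  have hs' := resS_continuous s e hL hs
  have hsec' : ∀ (σ : Gal(AlgebraicClosure F/F)) (a : AlgebraicClosure F),
      resS s e hL σ (algebraMap (AlgebraicClosure F) M a) =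
        algebraMap (AlgebraicClosure F) M (σ a) := by
    intro σ a
    rw [resS_apply, he, hsec, resG_apply, e.symm_apply_apply, he]
  have hM' : IsMaxUnramOver (upR F L M R) L M (AlgebraicClosure F) :=
    maxUnram_trans (e : AlgebraicClosure F ≃+* AlgebraicClosure k) he hKL R hM
  -- local places
  have hup : ∀ (w : HeightOneSpectrum (𝓞 F))
      (ι'' : AlgebraicClosure k →ₐ[F] AlgebraicClosure (w.adicCompletion F))
      (A'' : ValuationSubring M) (φ'' : A'' →+* AlgebraicClosure (w.adicCompletion F)),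
      Sel.IsPlaceOf s (w.adicCompletion F)
        (ι'' : _ →+* AlgebraicClosure (w.adicCompletion F)) A'' φ'' →
      Sel.IsPlaceOf (resS s e hL) (w.adicCompletion F)
        ((ι''.comp (e : _ →ₐ[F] AlgebraicClosure k) :
          AlgebraicClosure F →ₐ[F] AlgebraicClosure (w.adicCompletion F)) :
          _ →+* AlgebraicClosure (w.adicCompletion F)) A'' φ'' := by
    intro w ι'' A'' φ'' h''
    refine ⟨fun b => h''.1 (e b), h''.2.1, fun σ τ hστ x => ?_⟩
    refine h''.2.2 (resG e σ) τ (fun y => ?_) x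
    have h4 := hστ (e.symm y)
    change ι'' (e (σ (e.symm y))) = τ (ι'' (e (e.symm y))) at h4
    rw [e.apply_symm_apply] at h4
    exact h4
  have hloc' : ∀ w : {w : HeightOneSpectrum (𝓞 F) // w ∉ T},
      ∃ (ι' : AlgebraicClosure F →ₐ[F] AlgebraicClosure (w.1.adicCompletion F))
        (A' : ValuationSubring M) (φ' : A' →+* AlgebraicClosure (w.1.adicCompletion F)),
        Sel.IsPlaceOf (resS s e hL) (w.1.adicCompletion F)
          (ι' : _ →+* AlgebraicClosure (w.1.adicCompletion F)) A' φ' ∧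
        ∀ r : R, algebraMap K M r ∈ A' := by
    intro w
    obtain ⟨ι, A, φ, h, hA⟩ := hloc w.1 w.2
    exact ⟨_, A, φ, hup w.1 ι A φ h, hA⟩
  choose ι' A' φ' hφ' hA' using hloc'
  have hφ'' : ∀ w, Sel.IsPlaceOf (resS s e hL') (w.1.adicCompletion F)
      (ι' w : _ →+* AlgebraicClosure (w.1.adicCompletion F)) (A' w) (φ' w) :=
    fun w => ⟨(hφ' w).1, (hφ' w).2.1, fun σ τ h x => (hφ' w).2.2 σ τ h x⟩
  obtain ⟨Ψ, c1, c2, c3, -, -⟩ := Top.assembly (k := F) W (K := L) (M := M) htr' η₁' η₂' hind'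
    (resS s e hL) hs' hsec' T ι' A' φ' hφ' P hP hrk m hm hsha
    (fun η n hn => division_of_maxOver (upR F L M R) hM' W η n hn)
  have hη₁c : ¬ ∃ Q : (W⁄F).Point, η₁' = baseChange F L Q := by
    rintro ⟨Q, hQ⟩
    have := (hind' 1 0 ⟨Q, by rw [one_smul, zero_smul, add_zero]; exact hQ⟩).1
    exact one_ne_zero this
  obtain ⟨f, a, hft, hfa⟩ := exists_t W η₁' hη₁c (resS s e hL) hsec' T ι' A' φ' P hP Ψ c1 c3
  have hfM : Transcendental F (algebraMap L M f) := by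
    intro h
    exact hft ((isAlgebraic_algebraMap_iff (algebraMap L M).injective).1 h)
  obtain ⟨A₀, ψ, Δ, g1, g2, g3, g4, L₁, g5, g6, g7⟩ := place_over hK htr R hR hM s hs hsec e he
    hL' hFL T ι' A' φ' hφ'' hA' (algebraMap L M f) (hmemL f) hfM a hfa
  obtain ⟨g8, g9⟩ := section_of_open hK htr R hR hM s hsec g1 g2 Δ g3 g4
  -- the values
  let Ψ' : (W⁄M).Point → (W⁄F).Point := fun η =>
    if h : ∃ η' : (W⁄L).Point, Point.baseChange L M η' = η then Ψ h.choose else 0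
  have hinj : Function.Injective (baseChange L M (W' := W)) := map_injective _
  have hΨ' : ∀ η' : (W⁄L).Point, Ψ' (Point.baseChange L M η') = Ψ η' := by
    intro η'
    have h : ∃ η'' : (W⁄L).Point, Point.baseChange L M η'' = Point.baseChange L M η' := ⟨η', rfl⟩
    change (if h : ∃ η'' : (W⁄L).Point, Point.baseChange L M η'' = Point.baseChange L M η'
      then Ψ h.choose else 0) = _
    rw [dif_pos h]
    congr 1
    exact hinj h.choose_spec
  have hval : ∀ η, FixedPt s η → Sel.HasValue A₀ ((e : _ →+* AlgebraicClosure k).comp ψ) η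
      (Ψ' η) := by
    intro η hη
    obtain ⟨η', rfl⟩ := hpt η hη
    rw [hΨ']
    have h3 : Sel.IsSectionAt (resS s e hL) A₀ ψ := by
      refine ⟨fun b => ?_, fun x hx => ?_, ?_, fun τ hτ x => ?_⟩
      · obtain ⟨h4, h5⟩ := g2.1 (e b)
        exact ⟨h4, e.injective h5⟩
      · refine g2.2 x fun h0 => hx ?_
        exact e.injective (h0.trans (_root_.map_zero e).symm)
      · refine Subgroup.isOpen_mono (H₁ := stab L₁ A₀ ψ) (H₂ := stab L A₀ ψ) ?_ g6
        intro τ hτ f h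
        obtain ⟨h4, h5⟩ := g7 τ hτ ⟨algebraMap L M f, h⟩
        rw [← h5]
        congr 1
        exact Subtype.ext (hL _ (resG_fix e τ) f)
      · refine g7 τ (fun f h => ?_) x
        obtain ⟨y, hy⟩ := hL2 (f : M) (g5 f.2)
        have h4 : algebraMap L M y ∈ A₀ := by rw [hy]; exact h
        have h5 : (⟨(f : M), h⟩ : A₀) = ⟨_, h4⟩ := Subtype.ext hy.symm
        rw [h5]
        exact hτ y h4
    exact hasValue_up (e : _ →ₐ[F] AlgebraicClosure k) (fun x => rfl)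
      (hasValue_of_class h3 η' (Ψ η') (c2 η'))
  refine ⟨A₀, (e : _ →+* AlgebraicClosure k).comp ψ, Ψ', g1, g8, g9, ?_, hval, ?_, ?_⟩
  · intro η η' hη hη'
    obtain ⟨ξ, rfl⟩ := hpt η hη
    obtain ⟨ξ', rfl⟩ := hpt η' hη'
    rw [← map_add, hΨ', hΨ', hΨ', map_add]
  · intro w hw ι'' A'' φ'' h'' η hη
    obtain ⟨η', rfl⟩ := hpt η hη
    rw [hΨ']
    exact hasValue_up (AlgHom.id _ _) (fun x => rfl)
      (hasValue_local W (resS s e hL) w _ A'' φ'' (hup w ι'' A'' φ'' h'') η' (Ψ η') (c2 η'))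
  · intro hsep σ hσ f h
    exact fix_of_sep hsec g2 Ψ' hval hsep σ hσ f h

open scoped Classical in
universe u v in
theorem neigh_full {k : Type u} [Field k] [NumberField k]
    {K : Type*} [Field K] [Algebra k K] (hK : (⊤ : IntermediateField k K).FG)
    (htr : Algebra.trdeg k K = 1) (R : Subalgebra k K) (hR : R.FG)
    {M : Type*} [Field M] [Algebra K M] [IsGalois K M]
    [Algebra (AlgebraicClosure k) M] [Algebra k M]
    [IsScalarTower k K M] [IsScalarTower k (AlgebraicClosure k) M]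
    (hM : IsMaxUnramOver R K M (AlgebraicClosure k))
    (s : Gal(AlgebraicClosure k/k) →* Gal(M/K)) (hs : Continuous s)
    (hsec : ∀ σ a, s σ (algebraMap (AlgebraicClosure k) M a) =
      algebraMap (AlgebraicClosure k) M (σ a))
    {F : Type v} [Field F] [NumberField F] [Algebra k F]
    [Algebra F (AlgebraicClosure k)] [IsScalarTower k F (AlgebraicClosure k)]
    [Algebra F M] [IsScalarTower F (AlgebraicClosure k) M]
    (T : Finset (HeightOneSpectrum (𝓞 F)))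
    (hloc : ∀ w ∉ T, ∃ (ι : AlgebraicClosure k →ₐ[F] AlgebraicClosure (w.adicCompletion F))
      (A : ValuationSubring M) (φ : A →+* AlgebraicClosure (w.adicCompletion F)),
      Sel.IsPlaceOf s (w.adicCompletion F)
        (ι : _ →+* AlgebraicClosure (w.adicCompletion F)) A φ ∧ ∀ r : R, algebraMap K M r ∈ A)
    (W : WeierstrassCurve F) [W.IsShortNF] [W.IsElliptic]
    (P : (W⁄F).Point) (hP : ∀ n : ℕ, n ≠ 0 → n • P ≠ 0)
    (hrk : ∀ Q : (W⁄F).Point, ∃ a : ℤ, IsOfFinAddOrder (Q - a • P))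
    (m : ℕ) (hm : 1 ≤ m) (hsha : Sel.ShaKilledBy W T m)
    (η₁ η₂ : (W⁄M).Point) (h₁ : FixedPt s η₁) (h₂ : FixedPt s η₂)
    (hind : ∀ a b : ℤ, (∃ Q : (W⁄F).Point, a • η₁ + b • η₂ = Point.baseChange F M Q) →
      a = 0 ∧ b = 0) :
    ∃ (A₀ : ValuationSubring M) (ψ₀ : A₀ →+* AlgebraicClosure k) (Ψ : (W⁄M).Point → (W⁄F).Point),
      (∀ r : R, algebraMap K M r ∈ A₀) ∧ Sel.IsSectionAt s A₀ ψ₀ ∧
      (∀ (A₁ : ValuationSubring M) (ψ₁ : A₁ →+* AlgebraicClosure k), Sel.IsSectionAt s A₁ ψ₁ →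
        (∀ (f : K) (h : algebraMap K M f ∈ A₀), ∃ h' : algebraMap K M f ∈ A₁,
          ψ₁ ⟨_, h'⟩ = ψ₀ ⟨_, h⟩) →
        A₁ = A₀ ∧ ∀ (a : A₁) (b : A₀), (a : M) = b → ψ₁ a = ψ₀ b) ∧
      (∀ η η', FixedPt s η → FixedPt s η' → Ψ (η + η') = Ψ η + Ψ η') ∧
      (∀ η, FixedPt s η → Sel.HasValue A₀ ψ₀ η (Ψ η)) ∧
      (∀ w ∉ T, ∀ (ι' : AlgebraicClosure k →ₐ[F] AlgebraicClosure (w.adicCompletion F))
        (A' : ValuationSubring M) (φ' : A' →+* AlgebraicClosure (w.adicCompletion F)),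
        Sel.IsPlaceOf s (w.adicCompletion F)
          (ι' : _ →+* AlgebraicClosure (w.adicCompletion F)) A' φ' →
        ∀ η, FixedPt s η →
          Sel.HasValue A' φ' η (Point.baseChange F (w.adicCompletion F) (Ψ η))) ∧
      ((∀ (A₁ : ValuationSubring M) (ψ₁ : A₁ →+* AlgebraicClosure k),
          (∀ a, ∃ h : algebraMap (AlgebraicClosure k) M a ∈ A₁, ψ₁ ⟨_, h⟩ = a) →
          (∀ x : A₁, ψ₁ x ≠ 0 → (x : M)⁻¹ ∈ A₁) →
          (∀ η, FixedPt s η → Sel.HasValue A₁ ψ₁ η (Ψ η)) →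
          ∀ (f : K) (h : algebraMap K M f ∈ A₀), ∃ h' : algebraMap K M f ∈ A₁,
            ψ₁ ⟨_, h'⟩ = ψ₀ ⟨_, h⟩) →
        ∀ σ : Gal(AlgebraicClosure k/k), (∀ a : F, σ (algebraMap F _ a) = algebraMap F _ a) →
          ∀ (f : K) (h : algebraMap K M f ∈ A₀), σ (ψ₀ ⟨_, h⟩) = ψ₀ ⟨_, h⟩) := by
  let iFL : Algebra F (fixF s F) := (toFixF s F hsec).toAlgebra
  have t2 : IsScalarTower F (fixF s F) M := IsScalarTower.of_algebraMap_eq fun a => by
    change algebraMap F M a = algebraMap (AlgebraicClosure k) M (algebraMap F _ a)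
    rw [← IsScalarTower.algebraMap_apply]
  exact neigh_aux hK htr R hR hM s hs hsec T hloc W P hP hrk m hm hsha η₁ η₂ h₁ h₂
    hind (L := fixF s F) (fun σ hσ x => x.2 σ hσ) (fun x hx => ⟨⟨x, hx⟩, rfl⟩)

end Pool.Agent.Lib.MP_2f3286_ag.SNeigh
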