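import Mathlib
import Pool.Agent.Lib.MP_2f3286_ag.SNeigh.Final
import Pool.Agent.Lib.MP_2f3286_ag.Koe.Converse
import Pool.Agent.Lib.MP_2f3286_ag.Koe.Main

/-!
# Sections of the full Galois group of a function field, with an elliptic curve of rank one
-/

open WeierstrassCurve WeierstrassCurve.Affine WeierstrassCurve.Affine.Point
open IsDedekindDomain NumberField

namespace Pool.Agent.Lib.MP_2f3286_ag.SNeigh

open Pool.Agent.Lib.MP_2f3286_ag.Pt Pool.Agent.Lib.MP_2f3286_ag.Top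
  Pool.Agent.Lib.MP_2f3286_ag.Koe Pool.Agent.Lib.MP_2f3286_ag.SFull
  Pool.Agent.Lib.MP_2f3286_ag

/-- the section of a rational place is the section of the place over every field -/
theorem sectionAt_of_place {k kb K M : Type*} [Field k] [Field kb] [Algebra k kb] [Field K]
    [Field M] [Algebra K M] [Algebra kb M] {s : Gal(kb/k) →* Gal(M/K)} {A : ValuationSubring M}
    {ψ : A →+* kb} (h : Sel.IsPlaceOf s k (RingHom.id kb) A ψ) :
    (∀ (σ : Gal(kb/k)) (f : K) (h : algebraMap K M f ∈ A), σ (ψ ⟨_, h⟩) = ψ ⟨_, h⟩) ∧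
      Sel.IsSectionAt s A ψ := by
  have h1 : ∀ (σ : Gal(kb/k)) (f : K) (h : algebraMap K M f ∈ A), σ (ψ ⟨_, h⟩) = ψ ⟨_, h⟩ := by
    intro σ f hf
    obtain ⟨h3, h4⟩ := h.2.2 σ σ (fun _ => rfl) ⟨algebraMap K M f, hf⟩
    rw [← h4]
    congr 1
    apply Subtype.ext
    exact AlgEquiv.commutes (s σ) f
  refine ⟨h1, h.1, h.2.1, ?_, fun σ _ x => h.2.2 σ σ (fun _ => rfl) x⟩
  convert isOpen_univ
  exact Set.eq_univ_of_forall fun σ f hf => h1 σ f hf

open scoped Classical in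
universe u v in
theorem bir_aux {k : Type u} [Field k] [NumberField k]
    {K : Type*} [Field K] [Algebra k K] (htr : Algebra.trdeg k K = 1)
    {M : Type*} [Field M] [Algebra K M] [IsAlgClosed M] [Algebra.IsAlgebraic K M]
    [Algebra (AlgebraicClosure k) M] [Algebra k M]
    [IsScalarTower k K M] [IsScalarTower k (AlgebraicClosure k) M]
    (s : Gal(AlgebraicClosure k/k) →* Gal(M/K)) (hs : Continuous s)
    (hsec : ∀ σ a, s σ (algebraMap (AlgebraicClosure k) M a) =
      algebraMap (AlgebraicClosure k) M (σ a))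
    {F : Type v} [Field F] [NumberField F] [Algebra k F]
    [Algebra F (AlgebraicClosure k)] [IsScalarTower k F (AlgebraicClosure k)]
    [Algebra F M] [IsScalarTower F (AlgebraicClosure k) M]
    (T : Finset (HeightOneSpectrum (𝓞 F)))
    (W : WeierstrassCurve F) [W.IsShortNF] [W.IsElliptic]
    (P : (W⁄F).Point) (hP : ∀ n : ℕ, n ≠ 0 → n • P ≠ 0)
    (hrk : ∀ Q : (W⁄F).Point, ∃ a : ℤ, IsOfFinAddOrder (Q - a • P))
    (m : ℕ) (hm : 1 ≤ m) (hsha : Sel.ShaKilledBy W T m)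
    (η₁ η₂ : (W⁄M).Point) (h₁ : FixedPt s η₁) (h₂ : FixedPt s η₂)
    (hind : ∀ a b : ℤ, (∃ Q : (W⁄F).Point, a • η₁ + b • η₂ = Point.baseChange F M Q) →
      a = 0 ∧ b = 0)
    {L : Type*} [Field L] [Algebra F L] [Algebra L M] [IsScalarTower F L M]
    [Algebra.IsAlgebraic L M]
    (hL : ∀ σ : Gal(AlgebraicClosure k/k),
      (∀ a : F, σ (algebraMap F _ a) = algebraMap F _ a) →
      ∀ x : L, s σ (algebraMap L M x) = algebraMap L M x)
    (hL2 : ∀ x : M, (∀ σ : Gal(AlgebraicClosure k/k),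
      (∀ a : F, σ (algebraMap F _ a) = algebraMap F _ a) → s σ x = x) →
      ∃ y : L, algebraMap L M y = x) :
    ∃ (A₀ : ValuationSubring M) (ψ₀ : A₀ →+* AlgebraicClosure k) (Ψ : (W⁄M).Point → (W⁄F).Point),
      Sel.IsPlaceOf s k (RingHom.id _) A₀ ψ₀ ∧
      (∀ η η', FixedPt s η → FixedPt s η' → Ψ (η + η') = Ψ η + Ψ η') ∧
      (∀ η, FixedPt s η → Sel.HasValue A₀ ψ₀ η (Ψ η)) ∧
      (∀ w ∉ T, ∀ (ι' : AlgebraicClosure k →ₐ[F] AlgebraicClosure (w.adicCompletion F))
        (A' : ValuationSubring M) (φ' : A' →+* AlgebraicClosure (w.adicCompletion F)),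
        Sel.IsPlaceOf s (w.adicCompletion F)
          (ι' : _ →+* AlgebraicClosure (w.adicCompletion F)) A' φ' →
        ∀ η, FixedPt s η →
          Sel.HasValue A' φ' η (Point.baseChange F (w.adicCompletion F) (Ψ η))) := by
  have hfin : FiniteDimensional k F := FiniteDimensional.right ℚ k F
  have hkF : Algebra.IsAlgebraic k F := inferInstance
  have hFk : Algebra.IsAlgebraic F (AlgebraicClosure k) :=
    Algebra.IsAlgebraic.tower_top (K := k) F
  have : IsAlgClosure F (AlgebraicClosure k) := ⟨inferInstance, inferInstance⟩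
  let e : AlgebraicClosure F ≃ₐ[F] AlgebraicClosure k :=
    IsAlgClosure.equiv F (AlgebraicClosure F) (AlgebraicClosure k)
  let iFb : Algebra (AlgebraicClosure F) M :=
    ((algebraMap (AlgebraicClosure k) M).comp (e : _ →+* AlgebraicClosure k)).toAlgebra
  have he : ∀ a : AlgebraicClosure F, algebraMap (AlgebraicClosure F) M a =
      algebraMap (AlgebraicClosure k) M (e a) := fun _ => rfl
  have t1 : IsScalarTower F (AlgebraicClosure F) M := IsScalarTower.of_algebraMap_eq fun a => by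
    rw [he, AlgEquiv.commutes, ← IsScalarTower.algebraMap_apply]
  have t3 : IsScalarTower k F M := IsScalarTower.of_algebraMap_eq fun a => by
    rw [IsScalarTower.algebraMap_apply F (AlgebraicClosure k) M,
      ← IsScalarTower.algebraMap_apply k F (AlgebraicClosure k),
      ← IsScalarTower.algebraMap_apply k (AlgebraicClosure k) M]
  have htr' : Algebra.trdeg F L = 1 := trdeg_fix (k := k) (K := K) (Ω := M) htr
  -- the points over `L`
  have hpt : ∀ η : (W⁄M).Point, FixedPt s η → ∃ η' : (W⁄L).Point, Point.baseChange L M η' = η := by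
    intro η hη
    rcases η with _ | ⟨x, y, hxy⟩
    · exact ⟨0, rfl⟩
    · obtain ⟨a, rfl⟩ := hL2 x fun σ hσ => (hη σ hσ).1
      obtain ⟨b, rfl⟩ := hL2 y fun σ hσ => (hη σ hσ).2
      exact ⟨Point.some a b
        ((Affine.baseChange_nonsingular (W := W) (Algebra.ofId L M).injective a b).mp hxy), rfl⟩
  obtain ⟨η₁', hη₁⟩ := hpt η₁ h₁
  obtain ⟨η₂', hη₂⟩ := hpt η₂ h₂
  have hind' : ∀ a b : ℤ, (∃ Q : (W⁄F).Point, a • η₁' + b • η₂' = Point.baseChange F L Q) →
      a = 0 ∧ b = 0 := by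
    rintro a b ⟨Q, hQ⟩
    refine hind a b ⟨Q, ?_⟩
    rw [← hη₁, ← hη₂, ← map_zsmul, ← map_zsmul, ← map_add, hQ]
    exact Top.bc_bc Q
  -- the section over `F`
  have hs' := resS_continuous s e hL hs
  have hsec' : ∀ (σ : Gal(AlgebraicClosure F/F)) (a : AlgebraicClosure F),
      resS s e hL σ (algebraMap (AlgebraicClosure F) M a) =
        algebraMap (AlgebraicClosure F) M (σ a) := by
    intro σ a
    rw [resS_apply, he, hsec, resG_apply, e.symm_apply_apply, he]
  -- local places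
  have hloc : ∀ v : {v : HeightOneSpectrum (𝓞 F) // v ∉ T},
      ∃ (ι : AlgebraicClosure F →ₐ[F] AlgebraicClosure (v.1.adicCompletion F))
        (A : ValuationSubring M) (φ : A →+* AlgebraicClosure (v.1.adicCompletion F)),
        MP_2f3286_bir.IsPlaceOf (resS s e hL) (v.1.adicCompletion F)
          (ι : _ →+* AlgebraicClosure (v.1.adicCompletion F)) A φ := by
    intro v
    let ι : AlgebraicClosure F →ₐ[F] AlgebraicClosure (v.1.adicCompletion F) := IsAlgClosed.lift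
    obtain ⟨A, φ, h⟩ := local_place (resS s e hL) hs' hsec' v.1 ι
    exact ⟨ι, A, φ, h⟩
  choose ι A φ hφ using hloc
  have hdiv : ∀ (η : (W⁄L).Point) (n : ℕ), 1 ≤ n →
      ∃ T : (W⁄M).Point, n • T = Point.baseChange L M η := by
    intro η n hn
    have : CharZero M := charZero_of_injective_algebraMap (algebraMap F M).injective
    exact Pt.Div.divisible (k := F) (kb := M) hn _
  obtain ⟨Ψ, -, c2, -, -, h⟩ := Top.assembly (k := F) W (K := L) (M := M) htr' η₁' η₂' hind'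
    (resS s e hL) hs' hsec' T ι A φ hφ P hP hrk m hm hsha hdiv
  obtain ⟨A₀, ψ₀, h3, -⟩ := h inferInstance
  have h4 : Sel.IsPlaceOf s k (RingHom.id _) A₀ ((e : _ →+* AlgebraicClosure k).comp ψ₀) :=
    descend s hs hsec F (placeOn_of s e hL he h3)
  -- the values
  let Ψ' : (W⁄M).Point → (W⁄F).Point := fun η =>
    if h : ∃ η' : (W⁄L).Point, Point.baseChange L M η' = η then Ψ h.choose else 0
  have hinj : Function.Injective (baseChange L M (W' := W)) := map_injective _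
  have hΨ' : ∀ η' : (W⁄L).Point, Ψ' (Point.baseChange L M η') = Ψ η' := by
    intro η'
    have h : ∃ η'' : (W⁄L).Point, Point.baseChange L M η'' = Point.baseChange L M η' := ⟨η', rfl⟩
    change (if h : ∃ η'' : (W⁄L).Point, Point.baseChange L M η'' = Point.baseChange L M η'
      then Ψ h.choose else 0) = _
    rw [dif_pos h]
    congr 1
    exact hinj h.choose_spec
  refine ⟨A₀, (e : _ →+* AlgebraicClosure k).comp ψ₀, Ψ', h4, ?_, ?_, ?_⟩
  · intro η η' hη hη'
    obtain ⟨ξ, rfl⟩ := hpt η hη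
    obtain ⟨ξ', rfl⟩ := hpt η' hη'
    rw [← map_add, hΨ', hΨ', hΨ', map_add]
  · intro η hη
    obtain ⟨η', rfl⟩ := hpt η hη
    rw [hΨ']
    exact hasValue_up (e : _ →ₐ[F] AlgebraicClosure k) (fun x => rfl)
      (hasValue_of_class (sectionAt_of_place h3).2 η' (Ψ η') (c2 η'))
  · intro w hw ι'' A'' φ'' h'' η hη
    obtain ⟨η', rfl⟩ := hpt η hη
    rw [hΨ']
    have hup : Sel.IsPlaceOf (resS s e hL) (w.adicCompletion F)
        ((ι''.comp (e : _ →ₐ[F] AlgebraicClosure k) :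
          AlgebraicClosure F →ₐ[F] AlgebraicClosure (w.adicCompletion F)) :
          _ →+* AlgebraicClosure (w.adicCompletion F)) A'' φ'' := by
      refine ⟨fun b => h''.1 (e b), h''.2.1, fun σ τ hστ x => ?_⟩
      refine h''.2.2 (resG e σ) τ (fun y => ?_) x
      have h4 := hστ (e.symm y)
      change ι'' (e (σ (e.symm y))) = τ (ι'' (e (e.symm y))) at h4
      rw [e.apply_symm_apply] at h4
      exact h4
    exact hasValue_up (AlgHom.id _ _) (fun x => rfl)
      (hasValue_local W (resS s e hL) w _ A'' φ'' hup η' (Ψ η') (c2 η'))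

/-- over an algebraically closed field the section of a closed point is the section of a rational
place -/
theorem place_of_sectionAt {k : Type*} [Field k] [NumberField k] {K : Type*} [Field K]
    {M : Type*} [Field M] [Algebra K M] [IsAlgClosed M] [Algebra.IsAlgebraic K M]
    [Algebra (AlgebraicClosure k) M]
    (s : Gal(AlgebraicClosure k/k) →* Gal(M/K)) (hs : Continuous s)
    (hsec : ∀ σ a, s σ (algebraMap (AlgebraicClosure k) M a) =
      algebraMap (AlgebraicClosure k) M (σ a))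
    {A : ValuationSubring M} {ψ : A →+* AlgebraicClosure k} (h : Sel.IsSectionAt s A ψ) :
    Sel.IsPlaceOf s k (RingHom.id _) A ψ := by
  obtain ⟨h1, h2, h3, h4⟩ := h
  let Δ : Subgroup Gal(AlgebraicClosure k/k) := stab K A ψ
  have hΔ : IsOpen (Δ : Set Gal(AlgebraicClosure k/k)) := h3
  let k' : IntermediateField k (AlgebraicClosure k) := IntermediateField.fixedField Δ
  have hfix : k'.fixingSubgroup = Δ :=
    InfiniteGalois.fixingSubgroup_fixedField ⟨Δ, Subgroup.isClosed_of_isOpen Δ hΔ⟩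
  have hfd : FiniteDimensional k k' := by
    rw [← InfiniteGalois.isOpen_iff_finite, hfix]
    exact hΔ
  have hnf : NumberField k' := NumberField.of_module_finite k k'
  refine descend s hs hsec k' ⟨h1, h2, fun σ hσ x => ?_⟩
  refine h4 σ ?_ x
  have h5 : σ ∈ k'.fixingSubgroup := by
    rw [IntermediateField.mem_fixingSubgroup_iff]
    exact fun a ha => hσ ⟨a, ha⟩
  rw [hfix] at h5
  exact h5

open scoped Classical in
universe u v in
/-- the full fundamental group of a curve, or the full Galois group of its function field -/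
theorem neigh_uni {k : Type u} [Field k] [NumberField k]
    {K : Type*} [Field K] [Algebra k K] (hK : (⊤ : IntermediateField k K).FG)
    (htr : Algebra.trdeg k K = 1) (R : Subalgebra k K) (hR : R.FG)
    {M : Type*} [Field M] [Algebra K M] [IsGalois K M]
    [Algebra (AlgebraicClosure k) M] [Algebra k M]
    [IsScalarTower k K M] [IsScalarTower k (AlgebraicClosure k) M]
    (s : Gal(AlgebraicClosure k/k) →* Gal(M/K)) (hs : Continuous s)
    (hsec : ∀ σ a, s σ (algebraMap (AlgebraicClosure k) M a) =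
      algebraMap (AlgebraicClosure k) M (σ a))
    {F : Type v} [Field F] [NumberField F] [Algebra k F]
    [Algebra F (AlgebraicClosure k)] [IsScalarTower k F (AlgebraicClosure k)]
    [Algebra F M] [IsScalarTower F (AlgebraicClosure k) M]
    (S : Finset (HeightOneSpectrum (𝓞 F)))
    (hM : (IsMaxUnramOver R K M (AlgebraicClosure k) ∧
      ∀ w ∉ S, ∃ (ι : AlgebraicClosure k →ₐ[F] AlgebraicClosure (w.adicCompletion F))
        (A : ValuationSubring M) (φ : A →+* AlgebraicClosure (w.adicCompletion F)),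
        Sel.IsPlaceOf s (w.adicCompletion F)
          (ι : _ →+* AlgebraicClosure (w.adicCompletion F)) A φ ∧
            ∀ r : R, algebraMap K M r ∈ A) ∨ (IsAlgClosed M ∧ R = ⊥))
    (W : WeierstrassCurve F) [W.IsShortNF] [W.IsElliptic]
    (P : (W⁄F).Point) (hP : ∀ n : ℕ, n ≠ 0 → n • P ≠ 0)
    (hrk : ∀ Q : (W⁄F).Point, ∃ a : ℤ, IsOfFinAddOrder (Q - a • P))
    (m : ℕ) (hm : 1 ≤ m) (hsha : Sel.ShaKilledBy W S m)
    (η₁ η₂ : (W⁄M).Point) (h₁ : FixedPt s η₁) (h₂ : FixedPt s η₂)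
    (hind : ∀ a b : ℤ, (∃ Q : (W⁄F).Point, a • η₁ + b • η₂ = Point.baseChange F M Q) →
      a = 0 ∧ b = 0) :
    ∃ (A₀ : ValuationSubring M) (ψ₀ : A₀ →+* AlgebraicClosure k) (Ψ : (W⁄M).Point → (W⁄F).Point),
      (∀ r : R, algebraMap K M r ∈ A₀) ∧ Sel.IsSectionAt s A₀ ψ₀ ∧
      (∀ (A₁ : ValuationSubring M) (ψ₁ : A₁ →+* AlgebraicClosure k), Sel.IsSectionAt s A₁ ψ₁ →
        (IsAlgClosed M ∨ ∀ (f : K) (h : algebraMap K M f ∈ A₀), ∃ h' : algebraMap K M f ∈ A₁,
          ψ₁ ⟨_, h'⟩ = ψ₀ ⟨_, h⟩) →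
        A₁ = A₀ ∧ ∀ (a : A₁) (b : A₀), (a : M) = b → ψ₁ a = ψ₀ b) ∧
      (∀ η η', FixedPt s η → FixedPt s η' → Ψ (η + η') = Ψ η + Ψ η') ∧
      (∀ η, FixedPt s η → Sel.HasValue A₀ ψ₀ η (Ψ η)) ∧
      (∀ w ∉ S, ∀ (ι' : AlgebraicClosure k →ₐ[F] AlgebraicClosure (w.adicCompletion F))
        (A' : ValuationSubring M) (φ' : A' →+* AlgebraicClosure (w.adicCompletion F)),
        Sel.IsPlaceOf s (w.adicCompletion F)
          (ι' : _ →+* AlgebraicClosure (w.adicCompletion F)) A' φ' →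
        ∀ η, FixedPt s η →
          Sel.HasValue A' φ' η (Point.baseChange F (w.adicCompletion F) (Ψ η))) ∧
      (IsAlgClosed M → Sel.IsPlaceOf s k (RingHom.id _) A₀ ψ₀) ∧
      ((∀ (A₁ : ValuationSubring M) (ψ₁ : A₁ →+* AlgebraicClosure k),
          (∀ a, ∃ h : algebraMap (AlgebraicClosure k) M a ∈ A₁, ψ₁ ⟨_, h⟩ = a) →
          (∀ x : A₁, ψ₁ x ≠ 0 → (x : M)⁻¹ ∈ A₁) →
          (∀ η, FixedPt s η → Sel.HasValue A₁ ψ₁ η (Ψ η)) →
          ∀ (f : K) (h : algebraMap K M f ∈ A₀), ∃ h' : algebraMap K M f ∈ A₁,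
            ψ₁ ⟨_, h'⟩ = ψ₀ ⟨_, h⟩) →
        ∀ σ : Gal(AlgebraicClosure k/k), (∀ a : F, σ (algebraMap F _ a) = algebraMap F _ a) →
          ∀ (f : K) (h : algebraMap K M f ∈ A₀), σ (ψ₀ ⟨_, h⟩) = ψ₀ ⟨_, h⟩) := by
  have huniq : ∀ {A₀ : ValuationSubring M} {ψ₀ : A₀ →+* AlgebraicClosure k},
      Sel.IsSectionAt s A₀ ψ₀ → IsAlgClosed M → ∀ (A₁ : ValuationSubring M)
      (ψ₁ : A₁ →+* AlgebraicClosure k), Sel.IsSectionAt s A₁ ψ₁ →
        A₁ = A₀ ∧ ∀ (a : A₁) (b : A₀), (a : M) = b → ψ₁ a = ψ₀ b := by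
    intro A₀ ψ₀ h0 hcl A₁ ψ₁ h1
    exact MP_2f3286_bir.place_unique s hs (place_of_sectionAt s hs hsec h0)
      (place_of_sectionAt s hs hsec h1)
  rcases hM with ⟨hM, hloc⟩ | ⟨hcl, rfl⟩
  · obtain ⟨A₀, ψ₀, Ψ, g1, g2, g3, g4, g5, g6, g7⟩ := neigh_full hK htr R hR hM s hs hsec S hloc
      W P hP hrk m hm hsha η₁ η₂ h₁ h₂ hind
    refine ⟨A₀, ψ₀, Ψ, g1, g2, fun A₁ ψ₁ h h' => ?_, g4, g5, g6,
      fun hcl => place_of_sectionAt s hs hsec g2, g7⟩
    rcases h' with hcl | h'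
    · exact huniq g2 hcl A₁ ψ₁ h
    · exact g3 A₁ ψ₁ h h'
  · let iFL : Algebra F (fixF s F) := (toFixF s F hsec).toAlgebra
    have t2 : IsScalarTower F (fixF s F) M := IsScalarTower.of_algebraMap_eq fun a => by
      change algebraMap F M a = algebraMap (AlgebraicClosure k) M (algebraMap F _ a)
      rw [← IsScalarTower.algebraMap_apply]
    have hLM : Algebra.IsAlgebraic (fixF s F) M :=
      Algebra.IsAlgebraic.tower_top (K := K) (fixF s F)
    obtain ⟨A₀, ψ₀, Ψ, g1, g2, g3, g4⟩ := bir_aux htr s hs hsec S W P hP hrk m hm hsha η₁ η₂ h₁ h₂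
      hind (L := fixF s F) (fun σ hσ x => x.2 σ hσ) (fun x hx => ⟨⟨x, hx⟩, rfl⟩)
    obtain ⟨g5, g6⟩ := sectionAt_of_place g1
    refine ⟨A₀, ψ₀, Ψ, ?_, g6, fun A₁ ψ₁ h _ => huniq g6 hcl A₁ ψ₁ h, g2, g3, g4, fun _ => g1,
      fun _ σ _ f hf => g5 σ f hf⟩
    rintro ⟨r, hr⟩
    obtain ⟨a, rfl⟩ := Algebra.mem_bot.1 hr
    change algebraMap K M (algebraMap k K a) ∈ A₀
    rw [← IsScalarTower.algebraMap_apply k K M, IsScalarTower.algebraMap_apply k
      (AlgebraicClosure k) M]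
    exact (g1.1 _).1

end Pool.Agent.Lib.MP_2f3286_ag.SNeigh
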